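import Pool.Agent.SharpPoly.Fam

/-!
# A divisor criterion for the failure of uniqueness (sharp polynomials)
-/

set_option autoImplicit false

namespace Pool.Agent.SHP

open Pool.Agent.SharpPoly

theorem m3 : ∀ a b c : ℕ, a < 3 → b < 3 → c < 3 → a ≠ 0 → (a * b) % 3 = (a * c) % 3 → b = c := by
  intro a b c ha hb hc h0 h
  interval_cases a <;> interval_cases b <;> interval_cases c <;> omega

/-- If `t` divides `d + 1` and `q` divides `d - 2`, both odd, prime to three and congruent modulo
three, and `2 t < q < 4 t`, then uniqueness fails at the odd number `d`. -/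
theorem uf_div {d t q : ℕ} (hd : Odd d) (ht : t ∣ d + 1) (hq : q ∣ d - 2) (hto : Odd t)
    (hqo : Odd q) (ht3 : t % 3 ≠ 0) (h3 : t % 3 = q % 3) (h1 : 2 * t < q) (h2 : q < 4 * t) :
    UniqFails d := by
  have ht0 : 0 < t := hto.pos
  -- `d` is at least three
  have hd2 : 2 < d := by
    by_contra hcon
    have hd1 : d = 1 := by
      have := hd.pos
      rcases Nat.lt_or_ge d 2 with h | h
      · omega
      · have : d = 2 := by omega
        subst this
        exact absurd hd (by decide)
    subst hd1
    have : t ∣ 2 := by simpa using ht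
    have h4 : t ≤ 2 := Nat.le_of_dvd (by norm_num) this
    have h5 : t = 1 := by
      rcases hto with ⟨a, ha⟩
      omega
    subst h5
    have h6 : q = 3 := by omega
    subst h6
    omega
  obtain ⟨e, he⟩ := ht
  obtain ⟨f, hf⟩ := hq
  have heven : e % 2 = 0 := by
    rcases Nat.even_or_odd e with h | h
    · exact Nat.even_iff.1 h
    · exfalso
      have h7 : Odd (t * e) := hto.mul h
      rw [← he] at h7
      have h8 : Even (d + 1) := hd.add_one
      exact (Nat.not_even_iff_odd.2 h7) h8
  have hfodd : f % 2 = 1 := by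
    rcases Nat.even_or_odd f with h | h
    · exfalso
      have h7 : Even (q * f) := h.mul_left q
      rw [← hf] at h7
      obtain ⟨a, ha⟩ := hd
      obtain ⟨c, hc⟩ := h7
      omega
    · exact Nat.odd_iff.1 h
  -- `f < e`
  have hfe : f < e := by
    by_contra hcon
    have h7 : e ≤ f := not_lt.1 hcon
    have h8 : t * e ≤ q * f := Nat.mul_le_mul (by omega) h7
    omega
  have hmod : e % 3 = f % 3 := by
    have h7 : (t * e) % 3 = (q * f) % 3 := by
      rw [← he, ← hf]
      omega
    rw [Nat.mul_mod, Nat.mul_mod q f, ← h3] at h7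
    exact m3 _ _ _ (Nat.mod_lt _ (by norm_num)) (Nat.mod_lt _ (by norm_num))
      (Nat.mod_lt _ (by norm_num)) ht3 h7
  obtain ⟨k, hk⟩ : ∃ k, e = f + 3 * k := ⟨(e - f) / 3, by omega⟩
  have hkodd : Odd k := by
    rw [Nat.odd_iff]
    omega
  have hpo : Odd (q - 2 * t) := by
    rw [Nat.odd_iff] at hqo ⊢
    omega
  refine fail_param (p := q - 2 * t) (q := q) (k := k) hpo hqo hkodd hd (by omega) ?_
  obtain ⟨p, hp⟩ : ∃ p, q = p + 2 * t := ⟨q - 2 * t, by omega⟩
  have e1 : q - 2 * t = p := by omega
  have e2 : q - p = 2 * t := by omega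
  rw [e1, e2]
  have he' : (d : ℤ) + 1 = t * e := by exact_mod_cast he
  have hf' : (d : ℤ) - 2 = q * f := by
    have : d = q * f + 2 := by omega
    rw [this]
    push_cast
    ring
  have hk' : (e : ℤ) = f + 3 * k := by exact_mod_cast hk
  have hp' : (q : ℤ) = p + 2 * t := by exact_mod_cast hp
  zify
  have hpv : (p : ℤ) = q - 2 * t := by linarith
  rw [hpv]
  have hkk : (3 * k : ℤ) = e - f := by linarith
  have hg : 3 * (q : ℤ) * (2 * t) * k = 2 * q * (t * e) - 2 * t * (q * f) := by
    linear_combination 2 * (q : ℤ) * t * hkk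
  rw [hg, ← he', ← hf']
  ring

end Pool.Agent.SHP
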