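import Pool.Agent.SHP.Nt

/-!
# The number of good primes
-/

set_option autoImplicit false

namespace Pool.Agent.SHP

open Finset Filter

theorem th_bd : ∃ N₀ : ℕ, ∀ a : ℕ, a % 3 ≠ 0 → ∀ N : ℕ, N₀ ≤ N →
    19 / 40 * (N : ℝ) ≤ PC.PNT.th 3 a N ∧ PC.PNT.th 3 a N ≤ 21 / 40 * (N : ℝ) := by
  have key : ∀ a : ℕ, Nat.Coprime a 3 → ∃ N₀ : ℕ, ∀ N : ℕ, N₀ ≤ N →
      19 / 40 * (N : ℝ) ≤ PC.PNT.th 3 a N ∧ PC.PNT.th 3 a N ≤ 21 / 40 * (N : ℝ) := by
    intro a ha
    have h := PC.PNT.th_tendsto 3 a (by norm_num) ha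
    have h3 : ((Nat.totient 3 : ℕ) : ℝ) = 2 := by
      have : Nat.totient 3 = 2 := by decide
      rw [this]
      norm_num
    rw [h3] at h
    have h1 := h.eventually (lt_mem_nhds (show (19 : ℝ) / 40 < 1 / 2 by norm_num))
    have h2 := h.eventually (gt_mem_nhds (show (1 : ℝ) / 2 < 21 / 40 by norm_num))
    obtain ⟨N₀, hN₀⟩ := eventually_atTop.1 ((h1.and h2).and (eventually_ge_atTop 1))
    refine ⟨N₀, fun N hN => ?_⟩
    obtain ⟨⟨h4, h5⟩, h6⟩ := hN₀ N hN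
    have hpos : (0 : ℝ) < N := by exact_mod_cast h6
    rw [lt_div_iff₀ hpos] at h4
    rw [div_lt_iff₀ hpos] at h5
    exact ⟨h4.le, h5.le⟩
  obtain ⟨N₁, h1⟩ := key 1 (by decide)
  obtain ⟨N₂, h2⟩ := key 2 (by decide)
  refine ⟨max N₁ N₂, fun a ha N hN => ?_⟩
  have hth : PC.PNT.th 3 a N = PC.PNT.th 3 (a % 3) N := by
    unfold PC.PNT.th
    rw [Nat.mod_mod]
  have hc : a % 3 = 1 ∨ a % 3 = 2 := by omega
  rcases hc with hc | hc
  · rw [hth, hc]
    exact h1 N ((le_max_left _ _).trans hN)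
  · rw [hth, hc]
    exact h2 N ((le_max_right _ _).trans hN)

/-- the primes in an interval and a residue class -/
noncomputable def QQ (a : ℕ) (A : ℝ) : Finset ℕ :=
  (range ⌈4 * A⌉₊).filter fun p' : ℕ => p'.Prime ∧ 2 * A < p' ∧ p' % 3 = a % 3

theorem mem_QQ {a : ℕ} {A : ℝ} {p' : ℕ} :
    p' ∈ QQ a A ↔ (p' : ℝ) < 4 * A ∧ p'.Prime ∧ 2 * A < p' ∧ p' % 3 = a % 3 := by
  unfold QQ
  rw [mem_filter, mem_range, Nat.lt_ceil]

theorem pnt3 : ∃ A₀ : ℝ, 1 ≤ A₀ ∧ ∀ (a : ℕ), a % 3 ≠ 0 → ∀ A : ℝ, A₀ ≤ A → ∀ p : ℕ,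
    1 / (8 * Real.log (4 * A)) ≤ ∑ p' ∈ (QQ a A).erase p, 1 / (p' : ℝ) := by
  obtain ⟨N₀, hN₀⟩ := th_bd
  have hlog : ∃ A₁ : ℝ, ∀ A : ℝ, A₁ ≤ A → Real.log (4 * A) ≤ A / 4 := by
    have h := Real.isLittleO_log_id_atTop.bound (show (0 : ℝ) < 1 / 16 by norm_num)
    obtain ⟨A₁, h1⟩ := eventually_atTop.1 h
    refine ⟨max A₁ 1, fun A hA => ?_⟩
    have hA1 : 1 ≤ A := (le_max_right _ _).trans hA
    have h2 := h1 (4 * A) (by linarith [(le_max_left A₁ 1).trans hA])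
    simp only [id, Real.norm_eq_abs] at h2
    rw [abs_of_pos (by linarith : (0 : ℝ) < 4 * A)] at h2
    have := le_abs_self (Real.log (4 * A))
    linarith
  obtain ⟨A₁, hA₁⟩ := hlog
  refine ⟨max (max A₁ N₀) 6, le_trans (by norm_num) (le_max_right _ _), fun a ha A hA p => ?_⟩
  have hA6 : 6 ≤ A := (le_max_right _ _).trans hA
  have hAN : (N₀ : ℝ) ≤ A := ((le_max_right _ _).trans (le_max_left _ _)).trans hA
  have hlA : Real.log (4 * A) ≤ A / 4 :=
    hA₁ A (((le_max_left _ _).trans (le_max_left _ _)).trans hA)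
  have hA4 : 0 < 4 * A := by linarith
  have hlpos : 0 < Real.log (4 * A) := Real.log_pos (by linarith)
  -- the two Chebyshev sums
  have hN1 : N₀ ≤ ⌈4 * A⌉₊ := by
    have : (N₀ : ℝ) ≤ ⌈4 * A⌉₊ := (by linarith : (N₀ : ℝ) ≤ 4 * A).trans (Nat.le_ceil _)
    exact_mod_cast this
  have hfl : 2 * A < ⌊2 * A⌋₊ + 1 := Nat.lt_floor_add_one _
  have hfl' : (⌊2 * A⌋₊ : ℝ) ≤ 2 * A := Nat.floor_le (by linarith)
  have hN2 : N₀ ≤ ⌊2 * A⌋₊ + 1 := by
    have : (N₀ : ℝ) ≤ ((⌊2 * A⌋₊ + 1 : ℕ) : ℝ) := by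
      push_cast
      linarith
    exact_mod_cast this
  have e1 := (hN₀ a ha _ hN1).1
  have e2 := (hN₀ a ha _ hN2).2
  have e3 : 4 * A ≤ ⌈4 * A⌉₊ := Nat.le_ceil _
  have e4 : PC.PNT.th 3 a ⌈4 * A⌉₊ ≤ PC.PNT.th 3 a (⌊2 * A⌋₊ + 1) + ∑ p' ∈ QQ a A, Real.log p' := by
    have hsub : (range ⌈4 * A⌉₊).filter (fun p' : ℕ => p'.Prime ∧ p' % 3 = a % 3) ⊆
        (range (⌊2 * A⌋₊ + 1)).filter (fun p' : ℕ => p'.Prime ∧ p' % 3 = a % 3) ∪ QQ a A := by
      intro q hq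
      have hq' := mem_filter.1 hq
      rw [mem_union]
      by_cases h : q < ⌊2 * A⌋₊ + 1
      · exact Or.inl (mem_filter.2 ⟨mem_range.2 h, hq'.2⟩)
      · refine Or.inr (mem_QQ.2 ⟨Nat.lt_ceil.1 (mem_range.1 hq'.1), hq'.2.1, ?_, hq'.2.2⟩)
        have h1 : ⌊2 * A⌋₊ + 1 ≤ q := not_lt.1 h
        have h2 : ((⌊2 * A⌋₊ + 1 : ℕ) : ℝ) ≤ q := by exact_mod_cast h1
        push_cast at h2
        linarith
    have hnn : ∀ q : ℕ, 0 ≤ Real.log (q : ℝ) := fun q => Real.log_natCast_nonneg q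
    unfold PC.PNT.th
    refine (sum_le_sum_of_subset_of_nonneg hsub fun q _ _ => hnn q).trans ?_
    have := sum_union_inter (s₁ := (range (⌊2 * A⌋₊ + 1)).filter
      (fun p' : ℕ => p'.Prime ∧ p' % 3 = a % 3)) (s₂ := QQ a A) (f := fun q : ℕ => Real.log (q : ℝ))
    have h5 : 0 ≤ ∑ q ∈ (range (⌊2 * A⌋₊ + 1)).filter
      (fun p' : ℕ => p'.Prime ∧ p' % 3 = a % 3) ∩ QQ a A, Real.log (q : ℝ) :=
      sum_nonneg fun q _ => hnn q
    linarith
  have e5 : 3 / 4 * A ≤ ∑ p' ∈ QQ a A, Real.log p' := by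
    push_cast at e2
    linarith
  -- one prime removed
  have e6 : ∑ p' ∈ QQ a A, Real.log p' ≤ Real.log (4 * A) + ∑ p' ∈ (QQ a A).erase p, Real.log p' := by
    by_cases hp : p ∈ QQ a A
    · rw [← add_sum_erase _ _ hp]
      have h1 := mem_QQ.1 hp
      have h2 : (0 : ℝ) < p := by exact_mod_cast h1.2.1.pos
      have h3 : Real.log p ≤ Real.log (4 * A) := Real.log_le_log h2 h1.1.le
      linarith
    · rw [erase_eq_of_notMem hp]
      linarith
  have e7 : A / 2 ≤ ∑ p' ∈ (QQ a A).erase p, Real.log p' := by linarith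
  have e8 : 1 / (4 * A * Real.log (4 * A)) * ∑ p' ∈ (QQ a A).erase p, Real.log p' ≤
      ∑ p' ∈ (QQ a A).erase p, 1 / (p' : ℝ) := by
    rw [mul_sum]
    refine sum_le_sum fun q hq => ?_
    have h1 := mem_QQ.1 (mem_of_mem_erase hq)
    have h2 : (0 : ℝ) < q := by exact_mod_cast h1.2.1.pos
    have h3 : Real.log q ≤ Real.log (4 * A) := Real.log_le_log h2 h1.1.le
    have h4 : 0 ≤ Real.log (q : ℝ) := Real.log_natCast_nonneg q
    rw [div_mul_eq_mul_div, one_mul, div_le_div_iff₀ (by positivity) h2, one_mul, mul_comm]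
    exact mul_le_mul h1.1.le h3 h4 hA4.le
  refine le_trans ?_ e8
  have h9 : 0 < 1 / (4 * A * Real.log (4 * A)) := by positivity
  calc 1 / (8 * Real.log (4 * A)) = 1 / (4 * A * Real.log (4 * A)) * (A / 2) := by
        field_simp
        norm_num
    _ ≤ _ := mul_le_mul_of_nonneg_left e7 h9.le

/-! ### all the hypotheses -/

theorem ex_r : ∃ r : ℕ, (5100 : ℝ) ≤ (51 / 50) ^ r := by
  obtain ⟨r, hr⟩ := pow_unbounded_of_one_lt (5100 : ℝ) (show (1 : ℝ) < 51 / 50 by norm_num)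
  exact ⟨r, hr.le⟩

theorem ex_Hyp : ∃ (L C c : ℝ) (r : ℕ), Hyp L C c r := by
  obtain ⟨r, hr⟩ := ex_r
  obtain ⟨L₀, hL₀⟩ := nt_S
  obtain ⟨A₀, hA₀1, hA₀⟩ := pnt3
  set L : ℝ := max (max L₀ 2) (Real.log A₀) with hL
  have hL2 : 2 ≤ L := (le_max_right _ _).trans (le_max_left _ _)
  have hL0 : 0 < L := by linarith
  have hLL : L₀ ≤ L := (le_max_left _ _).trans (le_max_left _ _)
  have hLA : Real.log A₀ ≤ L := le_max_right _ _
  refine ⟨L, 12, 1 / (8 * (51 / 50) ^ (r + 3)), r, hL2, by norm_num, by positivity,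
    fun k => (hL₀ L hLL k).1, fun k => (hL₀ L hLL k).2, fun k z => nt_B hL2 k z, ?_⟩
  intro k v hv1 hv2 hv13 hv23 hLv p hp
  have hpw := mem_W.1 hp
  have hp3 := (W_three hL2 p hp).2
  have hp0 : (0 : ℝ) < p := by exact_mod_cast hpw.1.pos
  have hv1' : (0 : ℝ) < v.1 := by exact_mod_cast hv1
  have hv2' : (0 : ℝ) < v.2 := by exact_mod_cast hv2
  have hak := la_pos hL0 k
  have hakL := la_ge hL0 k
  set A : ℝ := v.1 * p / v.2 with hA
  have hA0 : 0 < A := by positivity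
  have hlogA : Real.log A = Real.log p - LL v := by
    rw [hA, Real.log_div (by positivity) hv2'.ne', Real.log_mul hv1'.ne' hp0.ne']
    unfold LL
    ring
  obtain ⟨hv3, hv4⟩ := abs_le.1 hLv
  have g0 : la L (k + r) = (51 / 50) ^ r * la L k := la_add L k r
  have g1 : la L (k + r + 1) = 51 / 50 * la L (k + r) := la_succ L (k + r)
  have g2 : la L (k + r + 2) = 51 / 50 * la L (k + r + 1) := la_succ L (k + r + 1)
  have g3 : la L (k + r + 3) = 51 / 50 * la L (k + r + 2) := la_succ L (k + r + 2)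
  have g4 : 5100 * la L k ≤ la L (k + r) := by
    rw [g0]
    exact mul_le_mul_of_nonneg_right hr hak.le
  have hlog4 : Real.log 4 ≤ 2 := by
    have := Real.log_two_lt_d9
    rw [log4]
    linarith
  have hl2 : 0 ≤ Real.log 2 := Real.log_nonneg (by norm_num)
  have hlo : la L (k + r) ≤ Real.log A := by
    rw [hlogA]
    linarith [hpw.2.1]
  have hhi : Real.log A + Real.log 4 ≤ la L (k + r + 3) := by
    rw [hlogA]
    linarith [hpw.2.2]
  have hAA : A₀ ≤ A := by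
    have h1 : Real.log A₀ ≤ Real.log A := by
      have := la_ge hL0 (k + r)
      linarith
    exact (Real.log_le_log_iff (by linarith) hA0).1 h1
  -- the residue class
  set a : ℕ := v.2 * (v.1 * p) with ha
  have hp3' : p % 3 ≠ 0 := by
    intro h
    have h1 : 3 ∣ p := Nat.dvd_of_mod_eq_zero h
    have h2 := (Nat.prime_dvd_prime_iff_eq Nat.prime_three hpw.1).1 h1
    omega
  have ha3 : a % 3 ≠ 0 := by
    intro h
    have h1 : 3 ∣ v.2 * (v.1 * p) := Nat.dvd_of_mod_eq_zero h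
    rcases (Nat.Prime.dvd_mul Nat.prime_three).1 h1 with h2 | h2
    · exact hv23 (Nat.mod_eq_zero_of_dvd h2)
    · rcases (Nat.Prime.dvd_mul Nat.prime_three).1 h2 with h3 | h3
      · exact hv13 (Nat.mod_eq_zero_of_dvd h3)
      · exact hp3' (Nat.mod_eq_zero_of_dvd h3)
  have hgd : ∀ q ∈ QQ a A, gd v p q := by
    intro q hq
    obtain ⟨h1, h2, h3, h4⟩ := mem_QQ.1 hq
    refine ⟨?_, ?_, ?_⟩
    · have : 2 * ((v.1 : ℝ) * p) < v.2 * q := by
        have h5 : (v.1 : ℝ) * p = A * v.2 := by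
          rw [hA]
          field_simp
        rw [h5]
        nlinarith
      exact_mod_cast this
    · have : (v.2 : ℝ) * q < 4 * ((v.1 : ℝ) * p) := by
        have h5 : (v.1 : ℝ) * p = A * v.2 := by
          rw [hA]
          field_simp
        rw [h5]
        nlinarith
      exact_mod_cast this
    · have h5 : (v.2 * v.2) % 3 = 1 := by
        have : v.2 % 3 = 1 ∨ v.2 % 3 = 2 := by omega
        rcases this with h | h
        · rw [Nat.mul_mod, h]
        · rw [Nat.mul_mod, h]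
      calc (v.1 * p) % 3 = ((v.2 * v.2) % 3 * ((v.1 * p) % 3)) % 3 := by
            rw [h5, one_mul, Nat.mod_mod]
        _ = ((v.2 * v.2) * (v.1 * p)) % 3 := (Nat.mul_mod _ _ _).symm
        _ = (v.2 * a) % 3 := by
            rw [ha]
            congr 1
            ring
        _ = (v.2 % 3 * (a % 3)) % 3 := Nat.mul_mod _ _ _
        _ = (v.2 % 3 * (q % 3)) % 3 := by rw [h4]
        _ = (v.2 * q) % 3 := (Nat.mul_mod _ _ _).symm
  have hsub : (QQ a A).erase p ⊆ (W L (k + r) (k + r + 3)).erase p := by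
    intro q hq
    have hq1 := mem_of_mem_erase hq
    have hq2 := ne_of_mem_erase hq
    obtain ⟨h1, h2, h3, h4⟩ := mem_QQ.1 hq1
    have hq0 : (0 : ℝ) < q := by exact_mod_cast h2.pos
    refine mem_erase.2 ⟨hq2, mem_W.2 ⟨h2, ?_, ?_⟩⟩
    · have h5 : Real.log (2 * A) < Real.log q := Real.log_lt_log (by linarith) h3
      rw [Real.log_mul (by norm_num) hA0.ne'] at h5
      linarith
    · have h5 : Real.log q < Real.log (4 * A) := Real.log_lt_log hq0 h1
      rw [Real.log_mul (by norm_num) hA0.ne'] at h5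
      linarith
  have hfin : ∑ p' ∈ (QQ a A).erase p, 1 / (p' : ℝ) ≤
      ∑ p' ∈ (W L (k + r) (k + r + 3)).erase p, 1 / (p' : ℝ) * gi v p p' := by
    refine le_trans (le_of_eq (sum_congr rfl fun q hq => ?_))
      (sum_le_sum_of_subset_of_nonneg hsub fun q _ _ => mul_nonneg (by positivity) (gi_nonneg _ _ _))
    unfold gi
    rw [if_pos (hgd q (mem_of_mem_erase hq)), mul_one]
  refine le_trans ?_ ((hA₀ a ha3 A hAA p).trans hfin)
  have hl4A : Real.log (4 * A) ≤ (51 / 50) ^ (r + 3) * la L k := by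
    rw [Real.log_mul (by norm_num) hA0.ne']
    have h6 : la L (k + (r + 3)) = (51 / 50) ^ (r + 3) * la L k := la_add L k (r + 3)
    rw [← h6, show k + (r + 3) = k + r + 3 by ring]
    linarith
  have hl4A0 : 0 < Real.log (4 * A) := Real.log_pos (by linarith)
  rw [div_div]
  exact one_div_le_one_div_of_le (by positivity) (by nlinarith)

end Pool.Agent.SHP
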