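import Pool.Agent.SHP.Vn
import Pool.Agent.SHP.Nt2
import Pool.Agent.SHP.Fam2

/-!
# Uniqueness of sharp polynomials fails in almost all odd degrees
-/

set_option autoImplicit false

namespace Pool.Agent.SHP

open Finset Filter
open Pool.Agent.SharpPoly

theorem odd_of {n : ℕ} (h : ∀ r, r.Prime → r ∣ n → 3 < r) : Odd n := by
  rw [← Nat.not_even_iff_odd, even_iff_two_dvd]
  intro h2
  have := h 2 Nat.prime_two h2
  omega

/-- a success gives a degree in which uniqueness fails -/
theorem uf_suc {L : ℝ} (hL : 2 ≤ L) {k r x : ℕ} (hx : Odd x)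
    (h : Suc (W L (k + r + 1) (k + r + 2)) (W L (k + r) (k + r + 3)) (st L k x) x) :
    UniqFails x := by
  have hL0 : 0 < L := by linarith
  obtain ⟨v, hv, p, hp, p', hp', -, h1, h2, h3⟩ := h
  have hvi := (st_inv hL k x).2 v hv
  have hpw := mem_W.1 hp
  have hpw' := mem_W.1 hp'
  have hp3 := (W_three hL p hp).2
  have hp3' := (W_three hL p' hp').2
  have m1 : la L k ≤ la L (k + r + 1) := la_mono hL0 (by omega)
  have m2 : la L k ≤ la L (k + r) := la_mono hL0 (by omega)
  have hcop : ∀ n q : ℕ, q.Prime → la L k < Real.log q →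
      (∀ r, r.Prime → r ∣ n → 3 < r ∧ Real.log r ≤ la L k) → Nat.Coprime n q := by
    intro n q hq hlq hn
    rw [Nat.coprime_comm, hq.coprime_iff_not_dvd]
    intro hd
    have := (hn q hq hd).2
    linarith
  have e1 : v.1 * p ∣ x + 1 :=
    Nat.Coprime.mul_dvd_of_dvd_of_dvd (hcop v.1 p hpw.1 (by linarith [hpw.2.1]) hvi.pr1) hvi.d1
      (Nat.dvd_of_mod_eq_zero h1)
  have e2 : v.2 * p' ∣ x - 2 := by
    refine Nat.Coprime.mul_dvd_of_dvd_of_dvd
      (hcop v.2 p' hpw'.1 (by linarith [hpw'.2.1]) hvi.pr2) hvi.d2 ?_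
    refine ⟨x / p', ?_⟩
    have := Nat.mod_add_div x p'
    omega
  have q1 : ∀ r, r.Prime → r ∣ v.1 * p → 3 < r := by
    intro r hr hd
    rcases (Nat.Prime.dvd_mul hr).1 hd with h | h
    · exact (hvi.pr1 r hr h).1
    · have := (Nat.prime_dvd_prime_iff_eq hr hpw.1).1 h
      omega
  have q2 : ∀ r, r.Prime → r ∣ v.2 * p' → 3 < r := by
    intro r hr hd
    rcases (Nat.Prime.dvd_mul hr).1 hd with h | h
    · exact (hvi.pr2 r hr h).1
    · have := (Nat.prime_dvd_prime_iff_eq hr hpw'.1).1 h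
      omega
  exact uf_div hx e1 e2 (odd_of q1) (odd_of q2) (mod3_ne q1) h3.2.2 h3.1 h3.2.1

theorem G_one {L : ℝ} (hL : 2 ≤ L) (r n : ℕ) {x : ℕ} (hx : Odd x) (hu : ¬ UniqFails x) :
    G L r n x = 1 := by
  induction n with
  | zero => rfl
  | succ n ih =>
    show G L r n x * (1 - sk L r ((r + 3) * n) (st L ((r + 3) * n) x) x) = 1
    have h : sk L r ((r + 3) * n) (st L ((r + 3) * n) x) x = 0 := by
      unfold sk si
      rw [if_neg fun hs => hu (uf_suc hL hx hs)]
    rw [ih, h]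
    norm_num

theorem sum_period {M : ℕ} {f : ℕ → ℝ} (h : Pe M f) (k : ℕ) :
    ∑ x ∈ range (M * k), f x = k * ∑ x ∈ range M, f x := by
  induction k with
  | zero => simp
  | succ k ih =>
    rw [Nat.mul_succ, Finset.sum_range_add, ih]
    have e : ∑ x ∈ range M, f (M * k + x) = ∑ x ∈ range M, f x := by
      refine sum_congr rfl fun x _ => ?_
      rw [← h.mod (M * k + x), Nat.mul_add_mod, h.mod]
    rw [e]
    push_cast
    ring

open Classical in
/-- the odd numbers below `X` at which uniqueness does not fail -/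
noncomputable def NU (X : ℕ) : Finset ℕ := (range X).filter fun d => Odd d ∧ ¬ UniqFails d

theorem mem_NU {X d : ℕ} : d ∈ NU X ↔ d < X ∧ Odd d ∧ ¬ UniqFails d := by
  classical
  unfold NU
  rw [mem_filter, mem_range]

theorem NU_sub (X : ℕ) : NU X ⊆ range X := fun _ h => mem_range.2 (mem_NU.1 h).1

theorem NU_le {L : ℝ} (hL : 2 ≤ L) (r n X : ℕ) :
    ((NU X).card : ℝ) ≤ (X + MM L 0 ((r + 3) * n)) * av (MM L 0 ((r + 3) * n)) (G L r n) := by
  have hL0 : 0 < L := by linarith
  set M := MM L 0 ((r + 3) * n) with hM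
  have hM0 : 0 < M := MM_pos _ _ _
  have hMR : (0 : ℝ) < M := by exact_mod_cast hM0
  have h1 : ((NU X).card : ℝ) ≤ ∑ x ∈ range X, G L r n x := by
    have e : ((NU X).card : ℝ) = ∑ x ∈ NU X, G L r n x := by
      rw [sum_congr rfl (g := fun _ => (1 : ℝ)), sum_const, nsmul_eq_mul, mul_one]
      intro x hx
      have hx' := mem_NU.1 hx
      exact G_one hL r n hx'.2.1 hx'.2.2
    rw [e]
    exact sum_le_sum_of_subset_of_nonneg (NU_sub X) fun x _ _ => (G01 L r n x).1
  have h2 : X ≤ M * (X / M + 1) := by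
    have := Nat.lt_mul_div_succ X hM0
    exact this.le
  have h3 : ∑ x ∈ range X, G L r n x ≤ ∑ x ∈ range (M * (X / M + 1)), G L r n x :=
    sum_le_sum_of_subset_of_nonneg (range_mono h2) fun x _ _ => (G01 L r n x).1
  rw [sum_period (G_pe hL0 r n)] at h3
  refine h1.trans (h3.trans ?_)
  unfold av
  have h4 : 0 ≤ ∑ x ∈ range M, G L r n x := sum_nonneg fun x _ => (G01 L r n x).1
  have h5 : ((X / M + 1 : ℕ) : ℝ) ≤ (X + M) / M := by
    push_cast
    have : ((X / M : ℕ) : ℝ) ≤ (X : ℝ) / M := Nat.cast_div_le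
    rw [add_div, div_self hMR.ne']
    linarith
  calc ((X / M + 1 : ℕ) : ℝ) * ∑ x ∈ range M, G L r n x
      ≤ (X + M) / M * ∑ x ∈ range M, G L r n x := mul_le_mul_of_nonneg_right h5 h4
    _ = _ := by ring

theorem MM_le {L : ℝ} (m : ℕ) : (MM L 0 m : ℝ) ≤ 4 ^ Real.exp (la L m) := by
  have h1 : MM L 0 m ≤ primorial ⌊Real.exp (la L m)⌋₊ := by
    unfold MM primorial
    refine prod_le_prod_of_subset_of_one_le' ?_ fun p hp _ => ?_
    · intro p hp
      have h := mem_W.1 hp
      have hp0 : (0 : ℝ) < p := by exact_mod_cast h.1.pos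
      rw [mem_filter, mem_range]
      refine ⟨Nat.lt_succ_of_le (Nat.le_floor ?_), h.1⟩
      rw [← Real.log_le_iff_le_exp hp0]
      exact h.2.2
    · exact (mem_filter.1 hp).2.one_lt.le
  have h2 := primorial_le_four_pow ⌊Real.exp (la L m)⌋₊
  have h3 : ((4 ^ ⌊Real.exp (la L m)⌋₊ : ℕ) : ℝ) ≤ 4 ^ Real.exp (la L m) := by
    push_cast
    rw [← Real.rpow_natCast]
    exact Real.rpow_le_rpow_of_exponent_le (by norm_num) (Nat.floor_le (Real.exp_pos _).le)
  refine le_trans ?_ h3
  exact_mod_cast h1.trans h2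

/-- The number of odd `d < X` at which uniqueness does not fail is `O(X / (log log X) ^ c)`. -/
theorem main : ∃ c C : ℝ, 0 < c ∧ 0 < C ∧ ∀ X : ℕ, 3 ≤ X →
    ((NU X).card : ℝ) ≤ C * X / Real.log (Real.log X) ^ c := by
  obtain ⟨L, C, c, r, H⟩ := ex_Hyp
  obtain ⟨a, R, η, δ, K⟩ := exists_cst H.hC H.hc r
  have hL2 := H.hL
  have hL0 : 0 < L := by linarith
  have hδ0 := K.δ0
  have hδ1 : δ ≤ 1 / 2 := by
    have h1 := K.δ2
    have h2 : a ≤ 1 / 2 := by
      rw [K.a_eq]
      have : (0 : ℝ) ≤ (9992 / 10000 : ℝ) ^ (r + 3) := by positivity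
      linarith
    linarith
  have hq0 : 0 < 1 - δ := by linarith
  have hη := K.η0
  set V0 : ℝ := 1 + η * Real.sqrt L with hV0
  have hV00 : 0 < V0 := by positivity
  set B : ℝ := (51 / 50 : ℝ) ^ (r + 3) with hB
  have hB1 : 1 < B := one_lt_pow₀ (by norm_num) (by omega)
  have hB0 : 0 < B := by linarith
  have hlB : 0 < Real.log B := Real.log_pos hB1
  -- the exponent
  set e : ℝ := -Real.log (1 - δ) / Real.log B with he
  have hlq : Real.log (1 - δ) < 0 := Real.log_neg hq0 (by linarith)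
  have he0 : 0 < e := by
    rw [he]
    exact div_pos (by linarith) hlB
  have hBe : B ^ (-e) = 1 - δ := by
    rw [Real.rpow_def_of_pos hB0, he]
    have : Real.log B * -(-Real.log (1 - δ) / Real.log B) = Real.log (1 - δ) := by
      field_simp
    rw [this, Real.exp_log hq0]
  -- for every n
  have key : ∀ (n X : ℕ), (4 : ℝ) ^ Real.exp (L * B ^ n) ≤ X →
      ((NU X).card : ℝ) ≤ 2 * X * ((1 - δ) ^ n * V0) := by
    intro n X hX
    have h1 := NU_le hL2 r n X
    have h2 := avG_le H K n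
    have h3 : (MM L 0 ((r + 3) * n) : ℝ) ≤ X := by
      refine (MM_le _).trans (le_trans (le_of_eq ?_) hX)
      unfold la
      rw [hB, ← pow_mul]
    have h4 : 0 ≤ av (MM L 0 ((r + 3) * n)) (G L r n) := av_nonneg fun x => (G01 L r n x).1
    calc ((NU X).card : ℝ) ≤ (X + MM L 0 ((r + 3) * n)) * av (MM L 0 ((r + 3) * n)) (G L r n) := h1
      _ ≤ (2 * X) * av (MM L 0 ((r + 3) * n)) (G L r n) :=
          mul_le_mul_of_nonneg_right (by linarith) h4
      _ ≤ 2 * X * ((1 - δ) ^ n * V0) := mul_le_mul_of_nonneg_left h2 (by positivity)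
  -- the constants
  have hcard : ∀ X : ℕ, ((NU X).card : ℝ) ≤ X := by
    intro X
    have : (NU X).card ≤ (range X).card := card_le_card (NU_sub X)
    rw [card_range] at this
    exact_mod_cast this
  set D : ℝ := max (2 * V0 / (1 - δ) * (2 * L) ^ e) ((2 * L * B + 2) ^ e) with hD
  have hD0 : 0 < D := lt_of_lt_of_le (by positivity) (le_max_right _ _)
  refine ⟨e, D, he0, hD0, fun X hX => ?_⟩
  have hX3 : (3 : ℝ) ≤ X := by exact_mod_cast hX
  have hX0 : (0 : ℝ) < X := by linarith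
  have hlX : 1 < Real.log X := by
    rw [Real.lt_log_iff_exp_lt hX0]
    have := Real.exp_one_lt_d9
    linarith
  set y := Real.log (Real.log X) with hy
  have hy0 : 0 < y := Real.log_pos hlX
  rcases le_or_gt y (2 * L * B + 2) with hc | hc
  · -- small `X`
    rw [le_div_iff₀ (Real.rpow_pos_of_pos hy0 _)]
    have h1 : y ^ e ≤ D := (Real.rpow_le_rpow hy0.le hc he0.le).trans (le_max_right _ _)
    calc ((NU X).card : ℝ) * y ^ e ≤ X * D :=
          mul_le_mul (hcard X) h1 (by positivity) hX0.le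
      _ = D * X := mul_comm _ _
  · -- large `X`
    have hz : 1 ≤ (y / 2) / L := by
      rw [le_div_iff₀ hL0]
      nlinarith
    obtain ⟨n, hn1, hn2⟩ := exists_nat_pow_near hz hB1
    have hX4 : (4 : ℝ) ^ Real.exp (L * B ^ n) ≤ X := by
      have h1 : L * B ^ n ≤ y / 2 := by
        rw [le_div_iff₀ hL0] at hn1
        linarith
      have h2 : Real.exp (L * B ^ n) ≤ Real.exp (y / 2) := Real.exp_le_exp.2 h1
      have h3 : Real.log 4 * Real.exp (L * B ^ n) ≤ Real.log X := by
        have h4 : Real.log 4 ≤ Real.exp (y / 2) := by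
          have h5 : Real.log 4 ≤ 2 := by
            have := Real.log_two_lt_d9
            rw [log4]
            linarith
          have h6 := Real.add_one_le_exp (y / 2)
          have h7 : 0 ≤ 2 * L * B := by positivity
          linarith
        have h8 : Real.exp (y / 2) * Real.exp (y / 2) = Real.log X := by
          rw [← Real.exp_add, add_halves, hy, Real.exp_log (by linarith)]
        rw [← h8]
        exact mul_le_mul h4 h2 (Real.exp_pos _).le (Real.exp_pos _).le
      rw [Real.rpow_def_of_pos (by norm_num : (0 : ℝ) < 4)]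
      rw [← Real.le_log_iff_exp_le hX0]
      exact h3
    have h1 := key n X hX4
    have h2 : (1 - δ) ^ n ≤ (1 - δ)⁻¹ * ((2 * L) ^ e / y ^ e) := by
      have h3 : (1 - δ) ^ (n + 1) = (B ^ (n + 1)) ^ (-e) := by
        rw [← hBe, ← Real.rpow_natCast, ← Real.rpow_mul hB0.le, ← Real.rpow_natCast,
          ← Real.rpow_mul hB0.le, mul_comm]
      have h4 : (B ^ (n + 1)) ^ (-e) ≤ ((y / 2) / L) ^ (-e) :=
        Real.rpow_le_rpow_of_nonpos (by positivity) hn2.le (by linarith)
      have h5 : ((y / 2) / L) ^ (-e) = (2 * L) ^ e / y ^ e := by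
        rw [Real.rpow_neg (by positivity), div_div, Real.div_rpow hy0.le (by positivity), inv_div]
      rw [h5, ← h3, pow_succ] at h4
      rw [inv_mul_eq_div, le_div_iff₀ hq0]
      exact h4
    refine h1.trans ?_
    rw [mul_div_assoc]
    have h6 : 2 * (X : ℝ) * ((1 - δ) ^ n * V0) ≤
        2 * X * (((1 - δ)⁻¹ * ((2 * L) ^ e / y ^ e)) * V0) := by
      gcongr
    refine h6.trans ?_
    have h7 : 2 * (X : ℝ) * (((1 - δ)⁻¹ * ((2 * L) ^ e / y ^ e)) * V0) =
        (2 * V0 / (1 - δ) * (2 * L) ^ e) * (X / y ^ e) := by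
      ring
    rw [h7]
    exact mul_le_mul_of_nonneg_right (le_max_left _ _) (by positivity)

end Pool.Agent.SHP
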