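import Mathlib

/-!
# Averages over a period (sharp polynomials, almost all degrees)
-/

set_option autoImplicit false

namespace Pool.Agent.SHP

open Finset

/-- average over a period -/
noncomputable def av (M : ℕ) (f : ℕ → ℝ) : ℝ := (∑ x ∈ range M, f x) / M

theorem av_const {M : ℕ} (hM : 0 < M) (c : ℝ) : av M (fun _ => c) = c := by
  unfold av
  rw [sum_const, card_range, nsmul_eq_mul]
  have : (M : ℝ) ≠ 0 := by exact_mod_cast hM.ne'
  field_simp

theorem av_add (M : ℕ) (f g : ℕ → ℝ) : av M (fun x => f x + g x) = av M f + av M g := by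
  unfold av
  rw [sum_add_distrib, add_div]

theorem av_sum {ι : Type} (s : Finset ι) (M : ℕ) (f : ι → ℕ → ℝ) :
    av M (fun x => ∑ i ∈ s, f i x) = ∑ i ∈ s, av M (f i) := by
  unfold av
  rw [sum_comm, sum_div]

theorem av_mul (M : ℕ) (c : ℝ) (f : ℕ → ℝ) : av M (fun x => c * f x) = c * av M f := by
  unfold av
  rw [← mul_sum, mul_div_assoc]

theorem av_mul' (M : ℕ) (c : ℝ) (f : ℕ → ℝ) : av M (fun x => f x * c) = av M f * c := by
  unfold av
  rw [← sum_mul, mul_div_right_comm]

theorem av_mono {M : ℕ} {f g : ℕ → ℝ} (h : ∀ x, f x ≤ g x) : av M f ≤ av M g := by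
  unfold av
  exact div_le_div_of_nonneg_right (sum_le_sum fun x _ => h x) (Nat.cast_nonneg M)

theorem av_nonneg {M : ℕ} {f : ℕ → ℝ} (h : ∀ x, 0 ≤ f x) : 0 ≤ av M f :=
  div_nonneg (sum_nonneg fun x _ => h x) (Nat.cast_nonneg M)

/-- `f` has period `M` -/
def Pe {β : Type} (M : ℕ) (f : ℕ → β) : Prop := ∀ x, f (x + M) = f x

theorem Pe.mod {β : Type} {M : ℕ} {f : ℕ → β} (h : Pe M f) (x : ℕ) : f (x % M) = f x := by
  have key : ∀ k y : ℕ, f (y + M * k) = f y := by
    intro k
    induction k with
    | zero => intro y; simp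
    | succ k ih =>
      intro y
      have e : y + M * (k + 1) = (y + M * k) + M := by ring
      rw [e, h, ih]
  conv_rhs => rw [← Nat.mod_add_div x M]
  exact (key _ _).symm

theorem Pe.of_dvd {β : Type} {M N : ℕ} {f : ℕ → β} (h : Pe M f) (hd : M ∣ N) : Pe N f := by
  obtain ⟨k, rfl⟩ := hd
  intro x
  rw [← h.mod (x + M * k), ← h.mod x, Nat.add_mul_mod_self_left]

/-- Chinese remainder theorem for averages -/
theorem av_crt {M N : ℕ} (hM : 0 < M) (hN : 0 < N) (hc : Nat.Coprime M N) (F : ℕ → ℕ → ℝ)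
    (h1 : ∀ y, Pe M (fun x => F x y)) (h2 : ∀ x, Pe N (F x)) :
    av (M * N) (fun x => F x x) = av M (fun x => av N (fun y => F x y)) := by
  have hs : ∑ x ∈ range (M * N), F x x = ∑ z ∈ range M ×ˢ range N, F z.1 z.2 := by
    have hinj : Set.InjOn (fun x : ℕ => (x % M, x % N)) (range (M * N) : Finset ℕ) := by
      intro x hx y hy h
      rw [mem_coe, mem_range] at hx hy
      have h3 := (Prod.mk.injEq ..).mp h
      have h4 : x ≡ y [MOD M * N] :=
        (Nat.modEq_and_modEq_iff_modEq_mul hc).1 ⟨h3.1, h3.2⟩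
      have h5 : x % (M * N) = y % (M * N) := h4
      rwa [Nat.mod_eq_of_lt hx, Nat.mod_eq_of_lt hy] at h5
    have himg : (range (M * N)).image (fun x : ℕ => (x % M, x % N)) = range M ×ˢ range N := by
      apply eq_of_subset_of_card_le
      · intro z hz
        rw [mem_image] at hz
        obtain ⟨x, _, rfl⟩ := hz
        rw [mem_product, mem_range, mem_range]
        exact ⟨Nat.mod_lt _ hM, Nat.mod_lt _ hN⟩
      · rw [card_image_of_injOn hinj, card_product, card_range, card_range, card_range]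
    rw [← himg, sum_image (fun x hx y hy h => hinj hx hy h)]
    apply sum_congr rfl
    intro x _
    show F x x = F (x % M) (x % N)
    rw [(h2 (x % M)).mod x]
    exact ((h1 x).mod x).symm
  unfold av
  rw [hs, sum_product, Nat.cast_mul]
  simp_rw [← sum_div]
  rw [div_div, mul_comm (N : ℝ) (M : ℝ)]

/-- average of a function with a smaller period -/
theorem av_mul_period {M N : ℕ} (hM : 0 < M) (hN : 0 < N) (hc : Nat.Coprime M N) (f : ℕ → ℝ)
    (h : Pe N f) : av (M * N) f = av N f := by
  have h1 := av_crt hM hN hc (fun _ y => f y) (fun _ _ => rfl) (fun _ => h)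
  rw [h1, av_const hM]

/-- average of a product of functions whose periods are pairwise coprime -/
theorem av_prod (b : Finset ℕ) (g : ℕ → ℕ → ℝ) (hp : ∀ p ∈ b, p.Prime) (hg : ∀ p ∈ b, Pe p (g p)) :
    av (∏ p ∈ b, p) (fun x => ∏ p ∈ b, g p x) = ∏ p ∈ b, av p (g p) := by
  induction b using Finset.induction_on with
  | empty =>
    rw [prod_empty, prod_empty]
    simp [av]
  | insert p b hpb ih =>
    have ih' := ih (fun q hq => hp q (mem_insert_of_mem hq)) (fun q hq => hg q (mem_insert_of_mem hq))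
    rw [prod_insert hpb, prod_insert hpb, ← ih']
    have hpp := hp p (mem_insert_self _ _)
    have hc : Nat.Coprime p (∏ q ∈ b, q) := by
      apply Nat.Coprime.prod_right
      intro q hq
      exact (Nat.coprime_primes hpp (hp q (mem_insert_of_mem hq))).2 (fun h => hpb (h ▸ hq))
    have hM : 0 < ∏ q ∈ b, q := prod_pos fun q hq => (hp q (mem_insert_of_mem hq)).pos
    have h1 := av_crt hpp.pos hM hc (fun x y => g p x * ∏ q ∈ b, g q y)
      (fun y x => by show g p (x + p) * _ = _; rw [hg p (mem_insert_self _ _) x])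
      (fun x y => by
        show g p x * ∏ q ∈ b, g q (y + ∏ q ∈ b, q) = g p x * ∏ q ∈ b, g q y
        congr 1
        apply prod_congr rfl
        intro q hq
        exact (hg q (mem_insert_of_mem hq)).of_dvd (dvd_prod_of_mem _ hq) y)
    simp only [prod_insert hpb]
    rw [h1]
    simp_rw [av_mul]
    rw [av_mul']

end Pool.Agent.SHP
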