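import Mathlib

/-!
# Averages over the divisor pairs given by a list of primes with signs
-/

set_option autoImplicit false

namespace Pool.Agent.SHP

open Finset

/-- multiply one of the two components -/
def mv (a : ℕ × Bool) (v : ℕ × ℕ) : ℕ × ℕ := if a.2 then (v.1, v.2 * a.1) else (v.1 * a.1, v.2)

/-- average over the pairs of divisors -/
noncomputable def EE : List (ℕ × Bool) → (ℕ × ℕ → ℝ) → ℝ
  | [], f => f (1, 1)
  | a :: l, f => (EE l f + EE l (fun v => f (mv a v))) / 2

/-- the pairs of divisors -/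
def Vl : List (ℕ × Bool) → ℕ × ℕ → Prop
  | [], v => v = (1, 1)
  | a :: l, v => Vl l v ∨ ∃ w, Vl l w ∧ v = mv a w

theorem EE_add (l : List (ℕ × Bool)) : ∀ f g : ℕ × ℕ → ℝ,
    EE l (fun v => f v + g v) = EE l f + EE l g := by
  induction l with
  | nil => intro f g; rfl
  | cons a l ih =>
    intro f g
    simp only [EE]
    rw [ih f g, ih (fun v => f (mv a v)) (fun v => g (mv a v))]
    ring

theorem EE_mul (l : List (ℕ × Bool)) : ∀ (c : ℝ) (f : ℕ × ℕ → ℝ),
    EE l (fun v => c * f v) = c * EE l f := by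
  induction l with
  | nil => intro c f; rfl
  | cons a l ih =>
    intro c f
    simp only [EE]
    rw [ih c f, ih c (fun v => f (mv a v))]
    ring

theorem EE_const (l : List (ℕ × Bool)) : ∀ c : ℝ, EE l (fun _ => c) = c := by
  induction l with
  | nil => intro c; rfl
  | cons a l ih =>
    intro c
    simp only [EE]
    rw [ih c]
    ring

theorem EE_sum {ι : Type} (l : List (ℕ × Bool)) (s : Finset ι) (f : ι → ℕ × ℕ → ℝ) :
    EE l (fun v => ∑ i ∈ s, f i v) = ∑ i ∈ s, EE l (f i) := by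
  classical
  induction s using Finset.induction_on with
  | empty => simp only [sum_empty]; exact EE_const l 0
  | insert i s hi ih =>
    simp only [sum_insert hi]
    rw [EE_add, ih]

theorem EE_mono (l : List (ℕ × Bool)) : ∀ f g : ℕ × ℕ → ℝ, (∀ v, Vl l v → f v ≤ g v) →
    EE l f ≤ EE l g := by
  induction l with
  | nil => intro f g h; exact h _ rfl
  | cons a l ih =>
    intro f g h
    simp only [EE]
    have h1 := ih f g fun v hv => h v (Or.inl hv)
    have h2 := ih (fun v => f (mv a v)) (fun v => g (mv a v)) fun v hv => h _ (Or.inr ⟨v, hv, rfl⟩)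
    linarith

theorem EE_congr (l : List (ℕ × Bool)) {f g : ℕ × ℕ → ℝ} (h : ∀ v, Vl l v → f v = g v) :
    EE l f = EE l g :=
  le_antisymm (EE_mono l f g fun v hv => (h v hv).le) (EE_mono l g f fun v hv => (h v hv).ge)

theorem EE_nonneg (l : List (ℕ × Bool)) (f : ℕ × ℕ → ℝ) (h : ∀ v, 0 ≤ f v) : 0 ≤ EE l f := by
  have := EE_mono l (fun _ => (0 : ℝ)) f fun v _ => h v
  rwa [EE_const] at this

theorem EE_pos_ex (l : List (ℕ × Bool)) (f : ℕ × ℕ → ℝ) (h : 0 < EE l f) :
    ∃ v, Vl l v ∧ 0 < f v := by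
  by_contra hcon
  push Not at hcon
  have := EE_mono l f (fun _ => (0 : ℝ)) hcon
  rw [EE_const] at this
  linarith

theorem EE_comm (l : List (ℕ × Bool)) : ∀ (l' : List (ℕ × Bool)) (F : ℕ × ℕ → ℕ × ℕ → ℝ),
    EE l (fun v => EE l' (fun w => F v w)) = EE l' (fun w => EE l (fun v => F v w)) := by
  induction l with
  | nil => intro l' F; rfl
  | cons a l ih =>
    intro l' F
    simp only [EE]
    rw [ih l' F, ih l' (fun v w => F (mv a v) w), ← EE_add]
    have := EE_mul l' (1 / 2) (fun w => EE l (fun v => F v w) + EE l (fun v => F (mv a v) w))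
    have e : (fun w => (EE l (fun v => F v w) + EE l (fun v => F (mv a v) w)) / 2)
        = fun w => 1 / 2 * (EE l (fun v => F v w) + EE l (fun v => F (mv a v) w)) := by
      funext w; ring
    rw [e, this]
    ring

theorem Vl_pos (l : List (ℕ × Bool)) (hl : ∀ a ∈ l, 0 < a.1) : ∀ v, Vl l v → 0 < v.1 ∧ 0 < v.2 := by
  induction l with
  | nil => intro v hv; rw [show v = (1, 1) from hv]; exact ⟨one_pos, one_pos⟩
  | cons a l ih =>
    intro v hv
    have ih' := ih fun b hb => hl b (List.mem_cons_of_mem _ hb)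
    rcases hv with h | ⟨w, hw, rfl⟩
    · exact ih' v h
    · have h1 := ih' w hw
      have h2 := hl a List.mem_cons_self
      unfold mv
      split
      · exact ⟨h1.1, Nat.mul_pos h1.2 h2⟩
      · exact ⟨Nat.mul_pos h1.1 h2, h1.2⟩

/-- the logarithm of the ratio -/
noncomputable def LL (v : ℕ × ℕ) : ℝ := Real.log v.2 - Real.log v.1

/-- the signed logarithm -/
noncomputable def sv (a : ℕ × Bool) : ℝ := if a.2 then Real.log a.1 else - Real.log a.1

theorem LL_mv {a : ℕ × Bool} {v : ℕ × ℕ} (ha : 0 < a.1) (h1 : 0 < v.1) (h2 : 0 < v.2) :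
    LL (mv a v) = LL v + sv a := by
  have ha' : (a.1 : ℝ) ≠ 0 := by exact_mod_cast ha.ne'
  have h1' : (v.1 : ℝ) ≠ 0 := by exact_mod_cast h1.ne'
  have h2' : (v.2 : ℝ) ≠ 0 := by exact_mod_cast h2.ne'
  unfold LL mv sv
  split
  · push_cast
    rw [Real.log_mul h2' ha']
    ring
  · push_cast
    rw [Real.log_mul h1' ha']
    ring

/-- indicator of `|r| ≤ 1` -/
noncomputable def ic (r : ℝ) : ℝ := if |r| ≤ 1 then 1 else 0

theorem ic_nonneg (r : ℝ) : 0 ≤ ic r := by
  unfold ic
  split <;> norm_num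

theorem ic_neg (r : ℝ) : ic (-r) = ic r := by
  unfold ic
  rw [abs_neg]

/-- the collision functional -/
noncomputable def uu (l : List (ℕ × Bool)) (z : ℝ) : ℝ :=
  EE l (fun v => EE l (fun w => ic (LL v - LL w + z)))

theorem uu_nonneg (l : List (ℕ × Bool)) (z : ℝ) : 0 ≤ uu l z :=
  EE_nonneg _ _ fun _ => EE_nonneg _ _ fun _ => ic_nonneg _

theorem uu_neg (l : List (ℕ × Bool)) (z : ℝ) : uu l (-z) = uu l z := by
  unfold uu
  rw [EE_comm]
  refine EE_congr l fun v _ => EE_congr l fun w _ => ?_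
  rw [← ic_neg]
  congr 1
  ring

theorem uu_cons (l : List (ℕ × Bool)) (hl : ∀ b ∈ l, 0 < b.1) (a : ℕ × Bool) (ha : 0 < a.1) :
    uu (a :: l) 0 = (uu l 0 + uu l (sv a)) / 2 := by
  have hp := Vl_pos l hl
  have h1 : EE l (fun v => EE l (fun w => ic (LL v - LL (mv a w) + 0))) = uu l (-sv a) := by
    unfold uu
    refine EE_congr l fun v hv => EE_congr l fun w hw => ?_
    rw [LL_mv ha (hp w hw).1 (hp w hw).2]
    congr 1
    ring
  have h2 : EE l (fun v => EE l (fun w => ic (LL (mv a v) - LL w + 0))) = uu l (sv a) := by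
    unfold uu
    refine EE_congr l fun v hv => EE_congr l fun w hw => ?_
    rw [LL_mv ha (hp v hv).1 (hp v hv).2]
    congr 1
    ring
  have h3 : EE l (fun v => EE l (fun w => ic (LL (mv a v) - LL (mv a w) + 0))) = uu l 0 := by
    unfold uu
    refine EE_congr l fun v hv => EE_congr l fun w hw => ?_
    rw [LL_mv ha (hp v hv).1 (hp v hv).2, LL_mv ha (hp w hw).1 (hp w hw).2]
    congr 1
    ring
  have hd : ∀ f g : ℕ × ℕ → ℝ, EE l (fun v => (f v + g v) / 2) = (EE l f + EE l g) / 2 := by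
    intro f g
    have e : (fun v => (f v + g v) / 2) = fun v => 1 / 2 * (f v + g v) := by
      funext v; ring
    rw [e, EE_mul l (1 / 2) (fun v => f v + g v), EE_add]
    ring
  have h4 : uu (a :: l) 0
      = (((EE l fun v => EE l (fun w => ic (LL v - LL w + 0)))
        + (EE l fun v => EE l (fun w => ic (LL v - LL (mv a w) + 0)))) / 2
        + ((EE l fun v => EE l (fun w => ic (LL (mv a v) - LL w + 0)))
        + (EE l fun v => EE l (fun w => ic (LL (mv a v) - LL (mv a w) + 0)))) / 2) / 2 := by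
    show EE (a :: l) (fun v => EE (a :: l) (fun w => ic (LL v - LL w + 0))) = _
    simp only [EE]
    rw [hd (fun v => EE l (fun w => ic (LL v - LL w + 0)))
        (fun v => EE l (fun w => ic (LL v - LL (mv a w) + 0))),
      hd (fun v => EE l (fun w => ic (LL (mv a v) - LL w + 0)))
        (fun v => EE l (fun w => ic (LL (mv a v) - LL (mv a w) + 0)))]
  rw [h4, h1, h2, h3, uu_neg]
  show (_ + _) / 2 = _
  unfold uu
  ring

theorem uu_cons' (l : List (ℕ × Bool)) (hl : ∀ b ∈ l, 0 < b.1) (p : ℕ) (s : Bool) (hp : 0 < p) :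
    uu ((p, s) :: l) 0 = (uu l 0 + uu l (Real.log p)) / 2 := by
  rw [uu_cons l hl (p, s) hp]
  congr 2
  unfold sv
  split
  · rfl
  · exact uu_neg l _

theorem uu_nil : uu [] 0 = 1 := by
  show ic (LL (1, 1) - LL (1, 1) + 0) = 1
  unfold ic
  rw [sub_self, add_zero, abs_zero, if_pos zero_le_one]

end Pool.Agent.SHP
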