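import Pool.Agent.SHP.Av
import Pool.Agent.SHP.E

/-!
# The law of one block
-/

set_option autoImplicit false

namespace Pool.Agent.SHP

open Finset

/-- the primes of the block at which `x + 1` or `x - 2` vanishes -/
def act (b : Finset ℕ) (x : ℕ) : Finset ℕ := b.filter fun p => (x + 1) % p = 0 ∨ x % p = 2

/-- next state -/
def nxt (b : Finset ℕ) (x : ℕ) (l : List (ℕ × Bool)) : List (ℕ × Bool) :=
  if (act b x).card = 1 then (∑ p ∈ act b x, p, decide (x % (∑ p ∈ act b x, p) = 2)) :: l else l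

/-- indicator of one of the two events at `p` -/
noncomputable def hs (s : Bool) (p x : ℕ) : ℝ :=
  if s then (if x % p = 2 then 1 else 0) else (if (x + 1) % p = 0 then 1 else 0)

/-- indicator of the absence of the two events at `p` -/
noncomputable def h0 (p x : ℕ) : ℝ := if (x + 1) % p = 0 ∨ x % p = 2 then 0 else 1

theorem mod_excl {p x : ℕ} (hp : 3 < p) (h1 : (x + 1) % p = 0) (h2 : x % p = 2) : False := by
  rw [Nat.add_mod, h2, Nat.mod_eq_of_lt (by omega : 1 < p), Nat.mod_eq_of_lt (by omega)] at h1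
  omega

theorem hs_pe (s : Bool) (p : ℕ) : Pe p (hs s p) := by
  intro x
  unfold hs
  have e : x + p + 1 = x + 1 + p := by ring
  rw [e, Nat.add_mod_right, Nat.add_mod_right]

theorem h0_pe (p : ℕ) : Pe p (h0 p) := by
  intro x
  unfold h0
  have e : x + p + 1 = x + 1 + p := by ring
  rw [e, Nat.add_mod_right, Nat.add_mod_right]

theorem sum_hs (s : Bool) {p : ℕ} (hp : 3 < p) : ∑ x ∈ range p, hs s p x = 1 := by
  cases s with
  | true =>
    rw [sum_eq_single 2]
    · show (if 2 % p = 2 then (1 : ℝ) else 0) = 1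
      rw [if_pos (Nat.mod_eq_of_lt (by omega))]
    · intro x hx h
      rw [mem_range] at hx
      show (if x % p = 2 then (1 : ℝ) else 0) = 0
      rw [Nat.mod_eq_of_lt hx, if_neg h]
    · intro h
      exact absurd (mem_range.2 (by omega)) h
  | false =>
    rw [sum_eq_single (p - 1)]
    · show (if (p - 1 + 1) % p = 0 then (1 : ℝ) else 0) = 1
      rw [Nat.sub_add_cancel (by omega), Nat.mod_self, if_pos rfl]
    · intro x hx h
      rw [mem_range] at hx
      show (if (x + 1) % p = 0 then (1 : ℝ) else 0) = 0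
      rw [Nat.mod_eq_of_lt (by omega), if_neg (by omega)]
    · intro h
      exact absurd (mem_range.2 (by omega)) h

theorem h0_eq {p : ℕ} (hp : 3 < p) (x : ℕ) : h0 p x = 1 - (hs true p x + hs false p x) := by
  unfold h0 hs
  by_cases h1 : (x + 1) % p = 0
  · by_cases h2 : x % p = 2
    · exact (mod_excl hp h1 h2).elim
    · simp [h1, h2]
  · by_cases h2 : x % p = 2
    · simp [h1, h2]
    · simp [h1, h2]

theorem av_hs (s : Bool) {p : ℕ} (hp : 3 < p) : av p (hs s p) = 1 / p := by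
  unfold av
  rw [sum_hs s hp]

theorem av_h0 {p : ℕ} (hp : 3 < p) : av p (h0 p) = 1 - 2 / p := by
  have hp0 : (p : ℝ) ≠ 0 := by
    have : 0 < p := by omega
    exact_mod_cast this.ne'
  unfold av
  rw [sum_congr rfl fun x _ => h0_eq hp x, sum_sub_distrib, sum_add_distrib, sum_hs _ hp,
    sum_hs _ hp, sum_const, card_range, nsmul_eq_mul, sub_div]
  field_simp
  norm_num

/-- weight of the event that exactly `p` is active -/
noncomputable def wt (b : Finset ℕ) (p : ℕ) : ℝ := 1 / p * ∏ r ∈ b.erase p, (1 - 2 / (r : ℝ))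

theorem av_ev (b : Finset ℕ) (hb : ∀ p ∈ b, p.Prime ∧ 3 < p) (s : Bool) {p : ℕ} (hp : p ∈ b) :
    av (∏ p ∈ b, p) (fun x => hs s p x * ∏ r ∈ b.erase p, h0 r x) = wt b p := by
  have h1 := av_prod b (fun r x => if r = p then hs s p x else h0 r x) (fun r hr => (hb r hr).1)
    (fun r hr => by
      intro x
      by_cases h : r = p
      · subst h
        simp only [if_true]
        exact hs_pe s r x
      · simp only [if_neg h]
        exact h0_pe r x)
  have h2 : (fun x => ∏ r ∈ b, (if r = p then hs s p x else h0 r x))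
      = fun x => hs s p x * ∏ r ∈ b.erase p, h0 r x := by
    funext x
    rw [← mul_prod_erase b _ hp, if_pos rfl]
    congr 1
    exact prod_congr rfl fun r hr => if_neg (ne_of_mem_erase hr)
  rw [h2] at h1
  rw [h1, ← mul_prod_erase b _ hp]
  unfold wt
  congr 1
  · simp only [if_true]
    exact av_hs s (hb p hp).2
  · refine prod_congr rfl fun r hr => ?_
    simp only [if_neg (ne_of_mem_erase hr)]
    exact av_h0 (hb r (mem_of_mem_erase hr)).2

theorem nxt_pt (b : Finset ℕ) (hb : ∀ p ∈ b, p.Prime ∧ 3 < p) (l : List (ℕ × Bool))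
    (Φ : List (ℕ × Bool) → ℝ) (x : ℕ) :
    Φ (nxt b x l) = Φ l + ∑ p ∈ b,
      ((hs true p x * ∏ r ∈ b.erase p, h0 r x) * (Φ ((p, true) :: l) - Φ l)
        + (hs false p x * ∏ r ∈ b.erase p, h0 r x) * (Φ ((p, false) :: l) - Φ l)) := by
  have hna : ∀ p ∈ b, p ∉ act b x → hs true p x = 0 ∧ hs false p x = 0 ∧ h0 p x = 1 := by
    intro p hp hpa
    have h1 : ¬((x + 1) % p = 0 ∨ x % p = 2) := fun h => hpa (mem_filter.2 ⟨hp, h⟩)
    push Not at h1
    unfold hs h0
    simp [h1.1, h1.2]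
  have hac : ∀ p, p ∈ act b x → h0 p x = 0 := by
    intro p hpa
    unfold h0
    rw [if_pos (mem_filter.1 hpa).2]
  by_cases hc : (act b x).card = 1
  · obtain ⟨p0, hp0⟩ := card_eq_one.1 hc
    have hp0a : p0 ∈ act b x := by rw [hp0]; exact mem_singleton_self _
    have hp0b : p0 ∈ b := (mem_filter.1 hp0a).1
    have hprod : ∏ r ∈ b.erase p0, h0 r x = 1 := by
      refine prod_eq_one fun r hr => ?_
      refine (hna r (mem_of_mem_erase hr) ?_).2.2
      rw [hp0, mem_singleton]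
      exact ne_of_mem_erase hr
    have hsum : ∑ p ∈ act b x, p = p0 := by rw [hp0, sum_singleton]
    rw [sum_eq_single p0]
    · unfold nxt
      rw [if_pos hc, hsum, hprod]
      rcases (mem_filter.1 hp0a).2 with h | h
      · have h2 : ¬ x % p0 = 2 := fun h2 => mod_excl (hb p0 hp0b).2 h h2
        unfold hs
        simp [h, h2]
      · have h2 : ¬ (x + 1) % p0 = 0 := fun h2 => mod_excl (hb p0 hp0b).2 h2 h
        unfold hs
        simp [h, h2]
    · intro p hp hne
      have h1 := hna p hp (by rw [hp0, mem_singleton]; exact hne)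
      rw [h1.1, h1.2.1]
      ring
    · intro h
      exact absurd hp0b h
  · have h1 : nxt b x l = l := by
      unfold nxt
      rw [if_neg hc]
    rw [h1, sum_eq_zero, add_zero]
    intro p hp
    by_cases hpa : p ∈ act b x
    · have hcc : 1 < (act b x).card := by
        have : 0 < (act b x).card := card_pos.2 ⟨p, hpa⟩
        omega
      obtain ⟨r, hr, hrp⟩ := exists_mem_ne hcc p
      have h2 : ∏ r ∈ b.erase p, h0 r x = 0 :=
        prod_eq_zero (mem_erase.2 ⟨hrp, (mem_filter.1 hr).1⟩) (hac r hr)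
      rw [h2]
      ring
    · have h1 := hna p hp hpa
      rw [h1.1, h1.2.1]
      ring

/-- the law of one block -/
theorem nxt_law (b : Finset ℕ) (hb : ∀ p ∈ b, p.Prime ∧ 3 < p) (l : List (ℕ × Bool))
    (Φ : List (ℕ × Bool) → ℝ) :
    av (∏ p ∈ b, p) (fun x => Φ (nxt b x l)) = Φ l + ∑ p ∈ b, wt b p *
      ((Φ ((p, true) :: l) - Φ l) + (Φ ((p, false) :: l) - Φ l)) := by
  have hM : 0 < ∏ p ∈ b, p := prod_pos fun p hp => (hb p hp).1.pos
  have h1 : (fun x => Φ (nxt b x l)) = fun x => Φ l + ∑ p ∈ b,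
      ((hs true p x * ∏ r ∈ b.erase p, h0 r x) * (Φ ((p, true) :: l) - Φ l)
        + (hs false p x * ∏ r ∈ b.erase p, h0 r x) * (Φ ((p, false) :: l) - Φ l)) := by
    funext x
    exact nxt_pt b hb l Φ x
  rw [h1, av_add (∏ p ∈ b, p) (fun _ => Φ l), av_const hM, av_sum]
  congr 1
  refine sum_congr rfl fun p hp => ?_
  rw [av_add (∏ p ∈ b, p) (fun x => (hs true p x * ∏ r ∈ b.erase p, h0 r x)
      * (Φ ((p, true) :: l) - Φ l)), av_mul', av_mul', av_ev b hb true hp, av_ev b hb false hp]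
  ring

theorem prod_ge (b : Finset ℕ) (hb : ∀ p ∈ b, p.Prime ∧ 3 < p) :
    1 - ∑ r ∈ b, 2 / (r : ℝ) ≤ ∏ r ∈ b, (1 - 2 / (r : ℝ)) ∧ ∏ r ∈ b, (1 - 2 / (r : ℝ)) ≤ 1 ∧
      0 ≤ ∏ r ∈ b, (1 - 2 / (r : ℝ)) := by
  induction b using Finset.induction_on with
  | empty => simp
  | insert p b hpb ih =>
    have ih' := ih fun q hq => hb q (mem_insert_of_mem hq)
    have hp := (hb p (mem_insert_self _ _)).2
    have hp' : (3 : ℝ) < p := by exact_mod_cast hp
    have h1 : 0 < 2 / (p : ℝ) := by positivity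
    have h2 : 2 / (p : ℝ) < 1 := by rw [div_lt_one (by linarith)]; linarith
    rw [sum_insert hpb, prod_insert hpb]
    set P := ∏ r ∈ b, (1 - 2 / (r : ℝ))
    set S := ∑ r ∈ b, 2 / (r : ℝ)
    refine ⟨?_, ?_, ?_⟩
    · nlinarith [ih'.1, ih'.2.1, ih'.2.2]
    · nlinarith [ih'.1, ih'.2.1, ih'.2.2]
    · exact mul_nonneg (by linarith) ih'.2.2

theorem wt_le (b : Finset ℕ) (hb : ∀ p ∈ b, p.Prime ∧ 3 < p) (p : ℕ) : wt b p ≤ 1 / p := by
  have h := (prod_ge (b.erase p) fun q hq => hb q (mem_of_mem_erase hq)).2.1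
  unfold wt
  have h1 : (0 : ℝ) ≤ 1 / p := by positivity
  nlinarith

theorem wt_nonneg (b : Finset ℕ) (hb : ∀ p ∈ b, p.Prime ∧ 3 < p) (p : ℕ) : 0 ≤ wt b p := by
  have h := (prod_ge (b.erase p) fun q hq => hb q (mem_of_mem_erase hq)).2.2
  unfold wt
  positivity

theorem wt_ge (b : Finset ℕ) (hb : ∀ p ∈ b, p.Prime ∧ 3 < p) (p : ℕ) :
    1 / (p : ℝ) * (1 - 2 * ∑ r ∈ b, 1 / (r : ℝ)) ≤ wt b p := by
  have h := (prod_ge (b.erase p) fun q hq => hb q (mem_of_mem_erase hq)).1
  have h1 : ∑ r ∈ b.erase p, 2 / (r : ℝ) ≤ 2 * ∑ r ∈ b, 1 / (r : ℝ) := by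
    rw [mul_sum]
    calc ∑ r ∈ b.erase p, 2 / (r : ℝ) ≤ ∑ r ∈ b, 2 / (r : ℝ) :=
          sum_le_sum_of_subset_of_nonneg (erase_subset _ _) fun r _ _ => by positivity
      _ = _ := sum_congr rfl fun r _ => by ring
  unfold wt
  exact mul_le_mul_of_nonneg_left (by linarith) (by positivity)

/-- average of the collision functional over the primes of a block -/
theorem sum_uu (b : Finset ℕ) (l : List (ℕ × Bool)) {K : ℝ}
    (hB : ∀ z : ℝ, ∑ p ∈ b, 1 / (p : ℝ) * ic (z + Real.log p) ≤ K) :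
    ∑ p ∈ b, 1 / (p : ℝ) * uu l (Real.log p) ≤ K := by
  have h1 : ∑ p ∈ b, 1 / (p : ℝ) * uu l (Real.log p)
      = EE l (fun v => EE l (fun w => ∑ p ∈ b, 1 / (p : ℝ) * ic (LL v - LL w + Real.log p))) := by
    have e1 : (fun v : ℕ × ℕ => EE l (fun w => ∑ p ∈ b, 1 / (p : ℝ) * ic (LL v - LL w + Real.log p)))
        = fun v => ∑ p ∈ b, 1 / (p : ℝ) * EE l (fun w => ic (LL v - LL w + Real.log p)) := by
      funext v
      rw [EE_sum]
      exact sum_congr rfl fun p _ => EE_mul l _ _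
    rw [e1, EE_sum]
    exact sum_congr rfl fun p _ => (EE_mul l _ _).symm
  rw [h1]
  have h2 := EE_mono l (fun v => EE l (fun w => ∑ p ∈ b, 1 / (p : ℝ) * ic (LL v - LL w + Real.log p)))
    (fun _ => K) fun v _ => by
      have h3 := EE_mono l (fun w => ∑ p ∈ b, 1 / (p : ℝ) * ic (LL v - LL w + Real.log p))
        (fun _ => K) fun w _ => hB _
      rwa [EE_const] at h3
  rwa [EE_const] at h2

/-- the contraction -/
theorem step (b : Finset ℕ) (hb : ∀ p ∈ b, p.Prime ∧ 3 < p) (l : List (ℕ × Bool))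
    (hl : ∀ a ∈ l, 0 < a.1) {lam C : ℝ} (hlam : 0 < lam)
    (hS1 : 191 / 10000 ≤ ∑ p ∈ b, 1 / (p : ℝ)) (hS2 : ∑ p ∈ b, 1 / (p : ℝ) ≤ 205 / 10000)
    (hB : ∀ z : ℝ, ∑ p ∈ b, 1 / (p : ℝ) * ic (z + Real.log p) ≤ C / lam) :
    av (∏ p ∈ b, p) (fun x => Real.sqrt (51 / 50 * lam * uu (nxt b x l) 0))
      ≤ 9992 / 10000 * Real.sqrt (lam * uu l 0) + (1 + C) := by
  have hUu := sum_uu b l hB
  have hU0 := uu_nonneg l 0
  rw [nxt_law b hb l (fun l => Real.sqrt (51 / 50 * lam * uu l 0))]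
  set X := Real.sqrt (lam * uu l 0) with hX
  have hX0 : 0 ≤ X := Real.sqrt_nonneg _
  have hXX : X ^ 2 = lam * uu l 0 := Real.sq_sqrt (by positivity)
  have hk : Real.sqrt (51 / 50 * lam * uu l 0) ≤ 100996 / 100000 * X := by
    rw [Real.sqrt_le_left (by positivity)]
    nlinarith [sq_nonneg X]
  have hk2 : 1.009949 * X ≤ Real.sqrt (51 / 50 * lam * uu l 0) := by
    apply Real.le_sqrt_of_sq_le
    nlinarith [sq_nonneg X]
  set Y := Real.sqrt (51 / 50 * lam * uu l 0) with hY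
  have hY0 : 0 ≤ Y := Real.sqrt_nonneg _
  have hYY : Y ^ 2 = 51 / 50 * lam * uu l 0 := Real.sq_sqrt (by positivity)
  have hP : ∀ p ∈ b, ∀ s : Bool, Real.sqrt (51 / 50 * lam * uu ((p, s) :: l) 0)
      ≤ 70715 / 100000 * Y + (1 + 51 / 100 * lam * uu l (Real.log p)) / 2 := by
    intro p hp s
    rw [uu_cons' l hl p s (hb p hp).1.pos]
    have hu := uu_nonneg l (Real.log p)
    set u := uu l (Real.log p)
    have hq : 0 ≤ 51 / 100 * lam * u := by positivity
    rw [Real.sqrt_le_left (by positivity)]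
    nlinarith [mul_nonneg hY0 hq, sq_nonneg (1 - 51 / 100 * lam * u), sq_nonneg Y]
  set W := ∑ p ∈ b, wt b p with hW
  have hW1 : 1831 / 100000 ≤ W := by
    have h1 : (∑ p ∈ b, 1 / (p : ℝ)) * (1 - 2 * ∑ r ∈ b, 1 / (r : ℝ)) ≤ W := by
      rw [sum_mul]
      exact sum_le_sum fun p _ => wt_ge b hb p
    nlinarith
  have hmain : ∑ p ∈ b, wt b p * ((Real.sqrt (51 / 50 * lam * uu ((p, true) :: l) 0) - Y)
      + (Real.sqrt (51 / 50 * lam * uu ((p, false) :: l) 0) - Y))
      ≤ -(58570 / 100000) * Y * W + (1 + C) := by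
    have h1 : ∀ p ∈ b, wt b p * ((Real.sqrt (51 / 50 * lam * uu ((p, true) :: l) 0) - Y)
        + (Real.sqrt (51 / 50 * lam * uu ((p, false) :: l) 0) - Y))
        ≤ -(58570 / 100000) * Y * wt b p
          + (1 / (p : ℝ) + 51 / 100 * lam * (1 / (p : ℝ) * uu l (Real.log p))) := by
      intro p hp
      have h2 := hP p hp true
      have h3 := hP p hp false
      have h4 := wt_nonneg b hb p
      have h5 := wt_le b hb p
      have hu := uu_nonneg l (Real.log p)
      set u := uu l (Real.log p)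
      have hq : 0 ≤ 1 + 51 / 100 * lam * u := by positivity
      have h6 : wt b p * (1 + 51 / 100 * lam * u) ≤ 1 / (p : ℝ) * (1 + 51 / 100 * lam * u) :=
        mul_le_mul_of_nonneg_right h5 hq
      have h7 : wt b p * ((Real.sqrt (51 / 50 * lam * uu ((p, true) :: l) 0) - Y)
          + (Real.sqrt (51 / 50 * lam * uu ((p, false) :: l) 0) - Y))
          ≤ wt b p * (-(58570 / 100000) * Y + (1 + 51 / 100 * lam * u)) :=
        mul_le_mul_of_nonneg_left (by linarith) h4
      linarith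
    calc _ ≤ ∑ p ∈ b, (-(58570 / 100000) * Y * wt b p
          + (1 / (p : ℝ) + 51 / 100 * lam * (1 / (p : ℝ) * uu l (Real.log p)))) := sum_le_sum h1
      _ = -(58570 / 100000) * Y * W + (∑ p ∈ b, 1 / (p : ℝ)
          + 51 / 100 * lam * ∑ p ∈ b, 1 / (p : ℝ) * uu l (Real.log p)) := by
        rw [sum_add_distrib, sum_add_distrib, mul_sum, mul_sum]
      _ ≤ _ := by
        have h8 : 51 / 100 * lam * ∑ p ∈ b, 1 / (p : ℝ) * uu l (Real.log p) ≤ C := by
          have h9 : 51 / 100 * lam * ∑ p ∈ b, 1 / (p : ℝ) * uu l (Real.log p)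
              ≤ 51 / 100 * lam * (C / lam) := mul_le_mul_of_nonneg_left hUu (by positivity)
          have h10 : 51 / 100 * lam * (C / lam) = 51 / 100 * C := by field_simp
          have h11 : 0 ≤ C / lam := le_trans (sum_nonneg fun p _ =>
            mul_nonneg (by positivity) (ic_nonneg _)) (hB 0)
          have h12 : 0 ≤ C := by
            have := mul_nonneg h11 hlam.le
            rwa [div_mul_cancel₀ _ hlam.ne'] at this
          linarith
        linarith
  have h13 : Y * (1 - 58570 / 100000 * W) ≤ Y * (1 - 58570 / 100000 * (1831 / 100000)) :=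
    mul_le_mul_of_nonneg_left (by linarith) hY0
  nlinarith

end Pool.Agent.SHP
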