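import Pool.Agent.SHP.Fin

/-!
# The chain of states
-/

set_option autoImplicit false

namespace Pool.Agent.SHP

open Finset

/-- logarithms of the ends of the blocks -/
noncomputable def la (L : ℝ) (k : ℕ) : ℝ := L * (51 / 50) ^ k

theorem la_succ (L : ℝ) (k : ℕ) : la L (k + 1) = 51 / 50 * la L k := by
  unfold la
  rw [pow_succ]
  ring

theorem la_add (L : ℝ) (k m : ℕ) : la L (k + m) = (51 / 50) ^ m * la L k := by
  unfold la
  rw [pow_add]
  ring

theorem la_pos {L : ℝ} (hL : 0 < L) (k : ℕ) : 0 < la L k := by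
  unfold la
  positivity

theorem la_mono {L : ℝ} (hL : 0 < L) : Monotone (la L) := by
  apply monotone_nat_of_le_succ
  intro k
  rw [la_succ]
  have := la_pos hL k
  linarith

theorem la_ge {L : ℝ} (hL : 0 < L) (k : ℕ) : L ≤ la L k := by
  have h := la_mono hL (Nat.zero_le k)
  have h0 : la L 0 = L := by unfold la; rw [pow_zero, mul_one]
  linarith

/-- the primes between two ends -/
noncomputable def W (L : ℝ) (a b : ℕ) : Finset ℕ :=
  (range (⌊Real.exp (la L b)⌋₊ + 1)).filter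
    fun p => p.Prime ∧ la L a < Real.log p ∧ Real.log p ≤ la L b

theorem mem_W {L : ℝ} {a b p : ℕ} :
    p ∈ W L a b ↔ p.Prime ∧ la L a < Real.log p ∧ Real.log p ≤ la L b := by
  unfold W
  rw [mem_filter, mem_range]
  constructor
  · exact fun h => h.2
  · intro h
    refine ⟨?_, h⟩
    have hp : (0 : ℝ) < p := by exact_mod_cast h.1.pos
    have h1 : (p : ℝ) ≤ Real.exp (la L b) := by
      rw [← Real.exp_log hp]
      exact Real.exp_le_exp.2 h.2.2
    exact Nat.lt_succ_of_le (Nat.le_floor h1)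

theorem W_three {L : ℝ} (hL : 2 ≤ L) {a b : ℕ} : ∀ p ∈ W L a b, p.Prime ∧ 3 < p := by
  intro p hp
  have h := mem_W.1 hp
  refine ⟨h.1, ?_⟩
  by_contra hc
  have h1 : (p : ℝ) ≤ 3 := by exact_mod_cast not_lt.1 hc
  have hp0 : (0 : ℝ) < p := by exact_mod_cast h.1.pos
  have h2 : Real.log p ≤ Real.log 3 := Real.log_le_log hp0 h1
  have h3 : Real.log 3 ≤ 2 := by
    have h4 := Real.log_le_sub_one_of_pos (by norm_num : (0 : ℝ) < 3)
    linarith
  have h5 := la_ge (by linarith : (0 : ℝ) < L) a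
  linarith [h.2.1]

/-- the product of the primes between two ends -/
noncomputable def MM (L : ℝ) (a b : ℕ) : ℕ := ∏ p ∈ W L a b, p

theorem MM_pos (L : ℝ) (a b : ℕ) : 0 < MM L a b := prod_pos fun _ hp => (mem_W.1 hp).1.pos

theorem W_union {L : ℝ} (hL : 0 < L) {a b c : ℕ} (h1 : a ≤ b) (h2 : b ≤ c) :
    W L a c = W L a b ∪ W L b c := by
  have m1 := la_mono hL h1
  have m2 := la_mono hL h2
  ext p
  rw [mem_union, mem_W, mem_W, mem_W]
  constructor
  · rintro ⟨hp, h3, h4⟩
    rcases le_or_gt (Real.log p) (la L b) with h | h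
    · exact Or.inl ⟨hp, h3, h⟩
    · exact Or.inr ⟨hp, h, h4⟩
  · rintro (⟨hp, h3, h4⟩ | ⟨hp, h3, h4⟩)
    · exact ⟨hp, h3, by linarith⟩
    · exact ⟨hp, by linarith, h4⟩

theorem W_disj (L : ℝ) (a b c : ℕ) : Disjoint (W L a b) (W L b c) := by
  rw [Finset.disjoint_left]
  intro p h1 h2
  have a1 := (mem_W.1 h1).2.2
  have a2 := (mem_W.1 h2).2.1
  linarith

theorem MM_mul {L : ℝ} (hL : 0 < L) {a b c : ℕ} (h1 : a ≤ b) (h2 : b ≤ c) :
    MM L a c = MM L a b * MM L b c := by
  unfold MM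
  rw [W_union hL h1 h2, prod_union (W_disj L a b c)]

theorem MM_coprime (L : ℝ) (a b c : ℕ) : Nat.Coprime (MM L a b) (MM L b c) := by
  unfold MM
  apply Nat.Coprime.prod_left
  intro p hp
  apply Nat.Coprime.prod_right
  intro q hq
  refine (Nat.coprime_primes (mem_W.1 hp).1 (mem_W.1 hq).1).2 ?_
  rintro rfl
  exact (Finset.disjoint_left.1 (W_disj L a b c)) hp hq

theorem nxt_pe (b : Finset ℕ) (l : List (ℕ × Bool)) : Pe (∏ p ∈ b, p) (fun x => nxt b x l) := by
  intro x
  have hmod : ∀ y p, p ∈ b → (y + ∏ p ∈ b, p) % p = y % p := by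
    intro y p hp
    obtain ⟨k, hk⟩ := dvd_prod_of_mem (fun p : ℕ => p) hp
    rw [hk, Nat.add_mul_mod_self_left]
  have hact : act b (x + ∏ p ∈ b, p) = act b x := by
    unfold act
    apply filter_congr
    intro p hp
    have e : x + ∏ p ∈ b, p + 1 = x + 1 + ∏ p ∈ b, p := by ring
    rw [e, hmod _ p hp, hmod _ p hp]
  show nxt b (x + ∏ p ∈ b, p) l = nxt b x l
  unfold nxt
  rw [hact]
  by_cases hc : (act b x).card = 1
  · rw [if_pos hc, if_pos hc]
    obtain ⟨p0, hp0⟩ := card_eq_one.1 hc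
    have hp0b : p0 ∈ b := by
      have : p0 ∈ act b x := by rw [hp0]; exact mem_singleton_self _
      exact (mem_filter.1 this).1
    rw [hp0, sum_singleton, hmod _ p0 hp0b]
  · rw [if_neg hc, if_neg hc]

/-- `m` blocks starting with the block `k` -/
noncomputable def run (L : ℝ) (k : ℕ) : ℕ → ℕ → List (ℕ × Bool) → List (ℕ × Bool)
  | 0, _, l => l
  | m + 1, x, l => nxt (W L (k + m) (k + m + 1)) x (run L k m x l)

theorem run_add (L : ℝ) (k m x : ℕ) (l : List (ℕ × Bool)) :
    run L 0 (k + m) x l = run L k m x (run L 0 k x l) := by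
  induction m with
  | zero => rfl
  | succ m ih =>
    show nxt (W L (0 + (k + m)) (0 + (k + m) + 1)) x (run L 0 (k + m) x l) = _
    rw [ih, Nat.zero_add]
    rfl

theorem run_pe {L : ℝ} (hL : 0 < L) (k m : ℕ) (l : List (ℕ × Bool)) :
    Pe (MM L k (k + m)) (fun x => run L k m x l) := by
  induction m with
  | zero => intro x; rfl
  | succ m ih =>
    intro x
    show nxt (W L (k + m) (k + m + 1)) (x + MM L k (k + (m + 1)))
      (run L k m (x + MM L k (k + (m + 1))) l) = nxt (W L (k + m) (k + m + 1)) x (run L k m x l)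
    have h1 : MM L k (k + (m + 1)) = MM L k (k + m) * MM L (k + m) (k + m + 1) :=
      MM_mul hL (by omega) (by omega)
    have h2 := (ih.of_dvd (Dvd.intro _ h1.symm)) x
    have h2' : run L k m (x + MM L k (k + (m + 1))) l = run L k m x l := h2
    rw [h2']
    exact ((nxt_pe (W L (k + m) (k + m + 1)) (run L k m x l)).of_dvd
      (Dvd.intro_left _ h1.symm)) x

/-- properties of the pairs of divisors -/
structure VI (L : ℝ) (k x : ℕ) (v : ℕ × ℕ) : Prop where
  pos1 : 0 < v.1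
  pos2 : 0 < v.2
  d1 : v.1 ∣ x + 1
  d2 : v.2 ∣ x - 2
  pr1 : ∀ r, r.Prime → r ∣ v.1 → 3 < r ∧ Real.log r ≤ la L k
  pr2 : ∀ r, r.Prime → r ∣ v.2 → 3 < r ∧ Real.log r ≤ la L k
  ll : |LL v| ≤ 51 * la L k

/-- properties of the states -/
def Inv (L : ℝ) (k x : ℕ) (l : List (ℕ × Bool)) : Prop :=
  (∀ a ∈ l, 0 < a.1) ∧ ∀ v, Vl l v → VI L k x v

theorem VI.mono {L : ℝ} (hL : 0 < L) {k x : ℕ} {v : ℕ × ℕ} (h : VI L k x v) : VI L (k + 1) x v := by
  have hm := la_mono hL (Nat.le_succ k)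
  exact ⟨h.pos1, h.pos2, h.d1, h.d2, fun r hr hd => ⟨(h.pr1 r hr hd).1, (h.pr1 r hr hd).2.trans hm⟩,
    fun r hr hd => ⟨(h.pr2 r hr hd).1, (h.pr2 r hr hd).2.trans hm⟩, h.ll.trans (by
      have hm' : la L k ≤ la L (k + 1) := hm
      linarith)⟩

theorem VI.mv {L : ℝ} (hL : 2 ≤ L) {k x : ℕ} {v : ℕ × ℕ} (h : VI L k x v) {p : ℕ} {s : Bool}
    (hp : p ∈ W L k (k + 1)) (hs : if s then x % p = 2 else (x + 1) % p = 0) :
    VI L (k + 1) x (mv (p, s) v) := by
  have hL0 : 0 < L := by linarith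
  have hpw := mem_W.1 hp
  have hp3 := (W_three hL p hp).2
  have h' := h.mono hL0
  have hcop : ∀ n : ℕ, (∀ r, r.Prime → r ∣ n → 3 < r ∧ Real.log r ≤ la L k) → Nat.Coprime n p := by
    intro n hn
    rw [Nat.coprime_comm, hpw.1.coprime_iff_not_dvd]
    intro hd
    have := (hn p hpw.1 hd).2
    linarith [hpw.2.1]
  have hpos := hpw.1.pos
  have hll : |LL (SHP.mv (p, s) v)| ≤ 51 * la L (k + 1) := by
    rw [LL_mv (a := (p, s)) hpos h.pos1 h.pos2]
    have h1 : |sv (p, s)| ≤ la L (k + 1) := by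
      have h2 : 0 ≤ Real.log p := Real.log_natCast_nonneg p
      unfold sv
      cases s with
      | true =>
        show |Real.log p| ≤ _
        rw [abs_of_nonneg h2]
        exact hpw.2.2
      | false =>
        show |-Real.log p| ≤ _
        rw [abs_neg, abs_of_nonneg h2]
        exact hpw.2.2
    have h3 := abs_add_le (LL v) (sv (p, s))
    have h4 := h.ll
    have h5 := la_succ L k
    linarith
  cases s with
  | true =>
    have hx : x % p = 2 := hs
    refine ⟨h.pos1, Nat.mul_pos h.pos2 hpos, h.d1, ?_, h'.pr1, ?_, hll⟩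
    · show v.2 * p ∣ x - 2
      refine Nat.Coprime.mul_dvd_of_dvd_of_dvd (hcop _ h.pr2) h.d2 ?_
      refine ⟨x / p, ?_⟩
      have := Nat.mod_add_div x p
      omega
    · intro r hr hd
      have hd' : r ∣ v.2 * p := hd
      rcases (Nat.Prime.dvd_mul hr).1 hd' with h6 | h6
      · exact h'.pr2 r hr h6
      · have h7 := (Nat.prime_dvd_prime_iff_eq hr hpw.1).1 h6
        subst h7
        exact ⟨hp3, hpw.2.2⟩
  | false =>
    have hx : (x + 1) % p = 0 := hs
    refine ⟨Nat.mul_pos h.pos1 hpos, h.pos2, ?_, h.d2, ?_, h'.pr2, hll⟩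
    · show v.1 * p ∣ x + 1
      exact Nat.Coprime.mul_dvd_of_dvd_of_dvd (hcop _ h.pr1) h.d1 (Nat.dvd_of_mod_eq_zero hx)
    · intro r hr hd
      have hd' : r ∣ v.1 * p := hd
      rcases (Nat.Prime.dvd_mul hr).1 hd' with h6 | h6
      · exact h'.pr1 r hr h6
      · have h7 := (Nat.prime_dvd_prime_iff_eq hr hpw.1).1 h6
        subst h7
        exact ⟨hp3, hpw.2.2⟩

theorem Inv.nxt {L : ℝ} (hL : 2 ≤ L) {k x : ℕ} {l : List (ℕ × Bool)} (h : Inv L k x l) :
    Inv L (k + 1) x (nxt (W L k (k + 1)) x l) := by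
  have hL0 : 0 < L := by linarith
  unfold SHP.nxt
  by_cases hc : (act (W L k (k + 1)) x).card = 1
  · rw [if_pos hc]
    obtain ⟨p0, hp0⟩ := card_eq_one.1 hc
    have hp0a : p0 ∈ act (W L k (k + 1)) x := by rw [hp0]; exact mem_singleton_self _
    have hp0b := (mem_filter.1 hp0a).1
    have hp0c := (mem_filter.1 hp0a).2
    rw [hp0, sum_singleton]
    refine ⟨?_, ?_⟩
    · intro a ha
      rcases List.mem_cons.1 ha with rfl | ha
      · exact (mem_W.1 hp0b).1.pos
      · exact h.1 a ha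
    · intro v hv
      rcases hv with hv | ⟨w, hw, rfl⟩
      · exact (h.2 v hv).mono hL0
      · refine (h.2 w hw).mv hL hp0b ?_
        by_cases h2 : x % p0 = 2
        · rw [decide_eq_true h2]
          exact h2
        · rw [decide_eq_false h2]
          exact hp0c.resolve_right h2
  · rw [if_neg hc]
    exact ⟨h.1, fun v hv => (h.2 v hv).mono hL0⟩

/-- the state after the blocks `0, …, k - 1` -/
noncomputable def st (L : ℝ) (k x : ℕ) : List (ℕ × Bool) := run L 0 k x []

theorem st_inv {L : ℝ} (hL : 2 ≤ L) (k x : ℕ) : Inv L k x (st L k x) := by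
  have hL0 : 0 < L := by linarith
  induction k with
  | zero =>
    refine ⟨fun a ha => absurd ha List.not_mem_nil, fun v hv => ?_⟩
    have hv' : v = (1, 1) := hv
    subst hv'
    refine ⟨one_pos, one_pos, one_dvd _, one_dvd _, ?_, ?_, ?_⟩
    · intro r hr hd
      exact absurd (Nat.dvd_one.1 hd) hr.one_lt.ne'
    · intro r hr hd
      exact absurd (Nat.dvd_one.1 hd) hr.one_lt.ne'
    · have h1 : LL (1, 1) = 0 := by unfold LL; simp
      rw [h1, abs_zero]
      have := la_pos hL0 0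
      positivity
  | succ k ih =>
    have h1 : st L (k + 1) x = nxt (W L k (k + 1)) x (st L k x) := by
      show nxt (W L (0 + k) (0 + k + 1)) x (run L 0 k x []) = _
      rw [Nat.zero_add]
      rfl
    rw [h1]
    exact ih.nxt hL

theorem run_inv {L : ℝ} {k x : ℕ} (m : ℕ) (l : List (ℕ × Bool))
    (hl : ∀ a ∈ l, 0 < a.1) : ∀ a ∈ run L k m x l, 0 < a.1 := by
  induction m with
  | zero => exact hl
  | succ m ih =>
    show ∀ a ∈ nxt (W L (k + m) (k + m + 1)) x (run L k m x l), 0 < a.1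
    unfold nxt
    by_cases hc : (act (W L (k + m) (k + m + 1)) x).card = 1
    · rw [if_pos hc]
      obtain ⟨p0, hp0⟩ := card_eq_one.1 hc
      have hp0a : p0 ∈ act (W L (k + m) (k + m + 1)) x := by rw [hp0]; exact mem_singleton_self _
      rw [hp0, sum_singleton]
      intro a ha
      rcases List.mem_cons.1 ha with rfl | ha
      · exact (mem_W.1 (mem_filter.1 hp0a).1).1.pos
      · exact ih a ha
    · rw [if_neg hc]
      exact ih

/-- the analytic hypotheses -/
structure Hyp (L C c : ℝ) (r : ℕ) : Prop where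
  hL : 2 ≤ L
  hC : 0 < C
  hc : 0 < c
  S1 : ∀ k, 191 / 10000 ≤ ∑ p ∈ W L k (k + 1), 1 / (p : ℝ)
  S2 : ∀ k, ∑ p ∈ W L k (k + 1), 1 / (p : ℝ) ≤ 205 / 10000
  B : ∀ (k : ℕ) (z : ℝ), ∑ p ∈ W L k (k + 1), 1 / (p : ℝ) * ic (z + Real.log p) ≤ C / la L k
  cc : ∀ (k : ℕ) (v : ℕ × ℕ), 0 < v.1 → 0 < v.2 → v.1 % 3 ≠ 0 → v.2 % 3 ≠ 0 →
    |LL v| ≤ 51 * la L k → ∀ p ∈ W L (k + r + 1) (k + r + 2),
    c / la L k ≤ ∑ p' ∈ (W L (k + r) (k + r + 3)).erase p, 1 / (p' : ℝ) * gi v p p'

/-- several blocks -/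
theorem steps {L C c : ℝ} {r : ℕ} (H : Hyp L C c r) (k m : ℕ) (l : List (ℕ × Bool))
    (hl : ∀ a ∈ l, 0 < a.1) :
    av (MM L k (k + m)) (fun x => Real.sqrt (la L (k + m) * uu (run L k m x l) 0))
      ≤ (9992 / 10000) ^ m * Real.sqrt (la L k * uu l 0) + 1250 * (1 + C) := by
  have hL0 : 0 < L := by linarith [H.hL]
  have hC := H.hC
  induction m with
  | zero =>
    have h1 : av (MM L k (k + 0)) (fun x => Real.sqrt (la L (k + 0) * uu (run L k 0 x l) 0))
        = Real.sqrt (la L k * uu l 0) :=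
      av_const (MM_pos L k (k + 0)) (Real.sqrt (la L k * uu l 0))
    rw [h1, pow_zero, one_mul]
    linarith
  | succ m ih =>
    have h1 : MM L k (k + (m + 1)) = MM L k (k + m) * MM L (k + m) (k + m + 1) :=
      MM_mul hL0 (by omega) (by omega)
    rw [h1]
    have h2 := av_crt (MM_pos L k (k + m)) (MM_pos L (k + m) (k + m + 1))
      (MM_coprime L k (k + m) (k + m + 1))
      (fun x y => Real.sqrt (la L (k + (m + 1)) *
        uu (nxt (W L (k + m) (k + m + 1)) y (run L k m x l)) 0))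
      (fun y x => by
        show Real.sqrt (la L (k + (m + 1)) * uu (nxt (W L (k + m) (k + m + 1)) y
          (run L k m (x + MM L k (k + m)) l)) 0) = _
        rw [show run L k m (x + MM L k (k + m)) l = run L k m x l from run_pe hL0 k m l x])
      (fun x y => by
        show Real.sqrt (la L (k + (m + 1)) * uu (nxt (W L (k + m) (k + m + 1))
          (y + MM L (k + m) (k + m + 1)) (run L k m x l)) 0) = _
        rw [show nxt (W L (k + m) (k + m + 1)) (y + MM L (k + m) (k + m + 1)) (run L k m x l)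
          = nxt (W L (k + m) (k + m + 1)) y (run L k m x l) from nxt_pe _ _ y])
    have h3 : av (MM L k (k + m) * MM L (k + m) (k + m + 1)) (fun x =>
        Real.sqrt (la L (k + (m + 1)) * uu (run L k (m + 1) x l) 0))
        = av (MM L k (k + m)) fun x => av (MM L (k + m) (k + m + 1)) fun y =>
          Real.sqrt (la L (k + (m + 1)) *
            uu (nxt (W L (k + m) (k + m + 1)) y (run L k m x l)) 0) := h2
    rw [h3]
    have h4 : ∀ x, av (MM L (k + m) (k + m + 1)) (fun y =>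
        Real.sqrt (la L (k + (m + 1)) * uu (nxt (W L (k + m) (k + m + 1)) y (run L k m x l)) 0))
        ≤ 9992 / 10000 * Real.sqrt (la L (k + m) * uu (run L k m x l) 0) + (1 + C) := by
      intro x
      have h5 := step (W L (k + m) (k + m + 1)) (W_three H.hL) (run L k m x l)
        (run_inv m l hl) (la_pos hL0 (k + m)) (H.S1 (k + m)) (H.S2 (k + m)) (H.B (k + m))
      have h6 : la L (k + (m + 1)) = 51 / 50 * la L (k + m) := la_succ L (k + m)
      rw [h6]
      exact h5
    refine (av_mono h4).trans ?_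
    rw [av_add (MM L k (k + m)) (fun x => 9992 / 10000 *
      Real.sqrt (la L (k + m) * uu (run L k m x l) 0)) (fun _ => 1 + C), av_mul,
      av_const (MM_pos _ _ _), pow_succ]
    linarith

theorem suc_pe (b1 g : Finset ℕ) (hbg : b1 ⊆ g) (l : List (ℕ × Bool)) :
    Pe (∏ p ∈ g, p) (si b1 g l) := by
  have hmod : ∀ y p, p ∈ g → (y + ∏ p ∈ g, p) % p = y % p := by
    intro y p hp
    obtain ⟨k, hk⟩ := dvd_prod_of_mem (fun p : ℕ => p) hp
    rw [hk, Nat.add_mul_mod_self_left]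
  intro y
  have h : Suc b1 g l (y + ∏ p ∈ g, p) ↔ Suc b1 g l y := by
    unfold Suc
    have e : y + ∏ p ∈ g, p + 1 = y + 1 + ∏ p ∈ g, p := by ring
    constructor
    · rintro ⟨v, hv, p, hp, p', hp', hne, h1, h2, h3⟩
      rw [e, hmod _ p (hbg hp)] at h1
      rw [hmod _ p' hp'] at h2
      exact ⟨v, hv, p, hp, p', hp', hne, h1, h2, h3⟩
    · rintro ⟨v, hv, p, hp, p', hp', hne, h1, h2, h3⟩
      rw [← hmod _ p (hbg hp), ← e] at h1
      rw [← hmod _ p' hp'] at h2
      exact ⟨v, hv, p, hp, p', hp', hne, h1, h2, h3⟩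
  unfold si
  by_cases hs : Suc b1 g l y
  · rw [if_pos hs, if_pos (h.2 hs)]
  · rw [if_neg hs, if_neg (fun h' => hs (h.1 h'))]

theorem mod3_ne {n : ℕ} (h : ∀ r, r.Prime → r ∣ n → 3 < r) : n % 3 ≠ 0 := by
  intro hc
  have := h 3 (by norm_num) (Nat.dvd_of_mod_eq_zero hc)
  omega

theorem av_si_nonneg (M : ℕ) (b1 g : Finset ℕ) (l : List (ℕ × Bool)) : 0 ≤ av M (si b1 g l) :=
  av_nonneg fun x => by
    unfold si
    split <;> norm_num

/-- an attempt -/
theorem attk {L C c : ℝ} {r : ℕ} (H : Hyp L C c r) (k x : ℕ) (l : List (ℕ × Bool))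
    (hl : Inv L k x l) :
    c ^ 2 / (300 * C) ≤ av (MM L k (k + (r + 3)))
      (si (W L (k + r + 1) (k + r + 2)) (W L (k + r) (k + r + 3)) l) * (la L k * uu l 0) := by
  have hL0 : 0 < L := by linarith [H.hL]
  have hC := H.hC
  have hbg : W L (k + r + 1) (k + r + 2) ⊆ W L (k + r) (k + r + 3) := by
    intro p hp
    have h1 := mem_W.1 hp
    have m1 : la L (k + r) ≤ la L (k + r + 1) := la_mono hL0 (by omega)
    have m2 : la L (k + r + 2) ≤ la L (k + r + 3) := la_mono hL0 (by omega)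
    exact mem_W.2 ⟨h1.1, by linarith [h1.2.1], by linarith [h1.2.2]⟩
  have hun : W L (k + r) (k + r + 3) = W L (k + r) (k + r + 1) ∪
      (W L (k + r + 1) (k + r + 1 + 1) ∪ W L (k + r + 2) (k + r + 2 + 1)) := by
    rw [W_union hL0 (by omega : k + r ≤ k + r + 1) (by omega : k + r + 1 ≤ k + r + 3),
      W_union hL0 (by omega : k + r + 1 ≤ k + r + 2) (by omega : k + r + 2 ≤ k + r + 3)]
  have hsum : ∀ f : ℕ → ℝ, ∑ p ∈ W L (k + r) (k + r + 3), f p
      = ∑ p ∈ W L (k + r) (k + r + 1), f p + (∑ p ∈ W L (k + r + 1) (k + r + 1 + 1), f p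
        + ∑ p ∈ W L (k + r + 2) (k + r + 2 + 1), f p) := by
    intro f
    rw [hun, sum_union, sum_union (W_disj L (k + r + 1) (k + r + 2) (k + r + 2 + 1))]
    rw [disjoint_union_right]
    refine ⟨W_disj L _ _ _, ?_⟩
    rw [Finset.disjoint_left]
    intro p h1 h2
    have a1 := (mem_W.1 h1).2.2
    have a2 := (mem_W.1 h2).2.1
    have m1 : la L (k + r + 1) ≤ la L (k + r + 2) := la_mono hL0 (by omega)
    linarith
  have hlk := la_pos hL0 k
  have hB : ∀ j, k ≤ j → ∀ z : ℝ, ∑ p ∈ W L j (j + 1), 1 / (p : ℝ) * ic (z + Real.log p)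
      ≤ C / la L k := by
    intro j hj z
    refine (H.B j z).trans ?_
    exact div_le_div_of_nonneg_left hC.le hlk (la_mono hL0 hj)
  have h1 := att (W L (k + r + 1) (k + r + 2)) (W L (k + r) (k + r + 3)) hbg (W_three H.hL) l hl.1
    hlk H.hc (by positivity : 0 < 3 * C) (H.S1 (k + r + 1))
    (by
      rw [hsum]
      have a1 := H.S2 (k + r)
      have a2 := H.S2 (k + r + 1)
      have a3 := H.S2 (k + r + 2)
      linarith)
    (fun z => by
      rw [hsum]
      have a1 := hB (k + r) (by omega) z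
      have a2 := hB (k + r + 1) (by omega) z
      have a3 := hB (k + r + 2) (by omega) z
      have e : 3 * C / la L k = C / la L k + (C / la L k + C / la L k) := by ring
      rw [e]
      linarith)
    (fun v hv p hp => by
      have hvi := hl.2 v hv
      exact H.cc k v hvi.pos1 hvi.pos2 (mod3_ne fun r hr hd => (hvi.pr1 r hr hd).1)
        (mod3_ne fun r hr hd => (hvi.pr2 r hr hd).1) hvi.ll p hp)
  have h2 : MM L k (k + (r + 3)) = MM L k (k + r) * MM L (k + r) (k + r + 3) :=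
    MM_mul hL0 (by omega) (by omega)
  rw [h2, av_mul_period (MM_pos _ _ _) (MM_pos _ _ _) (MM_coprime _ _ _ _) _ (suc_pe _ _ hbg l)]
  have e : c ^ 2 / (100 * (3 * C)) = c ^ 2 / (300 * C) := by
    congr 1
    ring
  rw [← e]
  exact h1

end Pool.Agent.SHP
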