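import Pool.Agent.SHP.Blk

/-!
# The success probability of one attempt
-/

set_option autoImplicit false

namespace Pool.Agent.SHP

open Finset

/-- the pair `v` together with `p`, `p'` satisfies the requirements -/
def gd (v : ℕ × ℕ) (p p' : ℕ) : Prop :=
  2 * (v.1 * p) < v.2 * p' ∧ v.2 * p' < 4 * (v.1 * p) ∧ (v.1 * p) % 3 = (v.2 * p') % 3

instance (v : ℕ × ℕ) (p p' : ℕ) : Decidable (gd v p p') := by
  unfold gd
  infer_instance

/-- indicator of `gd` -/
noncomputable def gi (v : ℕ × ℕ) (p p' : ℕ) : ℝ := if gd v p p' then 1 else 0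

/-- success -/
def Suc (b1 g : Finset ℕ) (l : List (ℕ × Bool)) (y : ℕ) : Prop :=
  ∃ v, Vl l v ∧ ∃ p ∈ b1, ∃ p' ∈ g, p ≠ p' ∧ (y + 1) % p = 0 ∧ y % p' = 2 ∧ gd v p p'

open Classical in
/-- indicator of success -/
noncomputable def si (b1 g : Finset ℕ) (l : List (ℕ × Bool)) (y : ℕ) : ℝ :=
  if Suc b1 g l y then 1 else 0

/-- the average number of pairs -/
noncomputable def NN (l : List (ℕ × Bool)) (z : ℕ × ℕ) : ℝ := EE l (fun v => gi v z.1 z.2)

theorem gi_nonneg (v : ℕ × ℕ) (p p' : ℕ) : 0 ≤ gi v p p' := by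
  unfold gi
  split <;> norm_num

theorem NN_nonneg (l : List (ℕ × Bool)) (z : ℕ × ℕ) : 0 ≤ NN l z :=
  EE_nonneg _ _ fun _ => gi_nonneg _ _ _

/-- indicator of the event that exactly `p` and `p'` are active -/
noncomputable def DD (g : Finset ℕ) (z : ℕ × ℕ) (y : ℕ) : ℝ :=
  hs false z.1 y * (hs true z.2 y * ∏ r ∈ (g.erase z.1).erase z.2, h0 r y)

/-- its probability -/
noncomputable def w2 (g : Finset ℕ) (z : ℕ × ℕ) : ℝ :=
  1 / (z.1 : ℝ) * (1 / (z.2 : ℝ) * ∏ r ∈ (g.erase z.1).erase z.2, (1 - 2 / (r : ℝ)))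

theorem av_DD (g : Finset ℕ) (hg : ∀ p ∈ g, p.Prime ∧ 3 < p) (z : ℕ × ℕ) (h1 : z.1 ∈ g)
    (h2 : z.2 ∈ g) (hne : z.1 ≠ z.2) : av (∏ p ∈ g, p) (DD g z) = w2 g z := by
  have h2' : z.2 ∈ g.erase z.1 := mem_erase.2 ⟨hne.symm, h2⟩
  have e1 := av_prod g (fun r x => if r = z.1 then hs false z.1 x else
    if r = z.2 then hs true z.2 x else h0 r x) (fun r hr => (hg r hr).1)
    (fun r hr => by
      intro x
      by_cases h : r = z.1
      · simp only [if_pos h]
        rw [h]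
        exact hs_pe false z.1 x
      · simp only [if_neg h]
        by_cases h' : r = z.2
        · simp only [if_pos h']
          rw [h']
          exact hs_pe true z.2 x
        · simp only [if_neg h']
          exact h0_pe r x)
  have e2 : (fun x => ∏ r ∈ g, (if r = z.1 then hs false z.1 x else
      if r = z.2 then hs true z.2 x else h0 r x)) = DD g z := by
    funext x
    rw [← mul_prod_erase g _ h1, ← mul_prod_erase (g.erase z.1) _ h2', if_pos rfl,
      if_neg hne.symm, if_pos rfl]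
    unfold DD
    congr 2
    refine prod_congr rfl fun r hr => ?_
    rw [if_neg (ne_of_mem_erase (mem_of_mem_erase hr)), if_neg (ne_of_mem_erase hr)]
  rw [e2] at e1
  rw [e1, ← mul_prod_erase g _ h1, ← mul_prod_erase (g.erase z.1) _ h2']
  unfold w2
  congr 1
  · simp only [if_true]
    exact av_hs false (hg _ h1).2
  · congr 1
    · simp only [if_neg hne.symm, if_true]
      exact av_hs true (hg _ h2).2
    · refine prod_congr rfl fun r hr => ?_
      simp only [if_neg (ne_of_mem_erase (mem_of_mem_erase hr)), if_neg (ne_of_mem_erase hr)]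
      exact av_h0 (hg r (mem_of_mem_erase (mem_of_mem_erase hr))).2

theorem hs01 (s : Bool) (p x : ℕ) : hs s p x = 0 ∨ hs s p x = 1 := by
  unfold hs
  split <;> split <;> simp

theorem h001 (p x : ℕ) : h0 p x = 0 ∨ h0 p x = 1 := by
  unfold h0
  split <;> simp

theorem DD_nonneg (g : Finset ℕ) (z : ℕ × ℕ) (y : ℕ) : 0 ≤ DD g z y := by
  unfold DD
  have h1 : 0 ≤ hs false z.1 y := by rcases hs01 false z.1 y with h | h <;> rw [h] ; norm_num
  have h2 : 0 ≤ hs true z.2 y := by rcases hs01 true z.2 y with h | h <;> rw [h] ; norm_num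
  have h3 : 0 ≤ ∏ r ∈ (g.erase z.1).erase z.2, h0 r y := prod_nonneg fun r _ => by
    rcases h001 r y with h | h <;> rw [h] ; norm_num
  positivity

theorem DD_le (g : Finset ℕ) (z : ℕ × ℕ) (y : ℕ) : DD g z y ≤ 1 := by
  unfold DD
  have h3 : ∏ r ∈ (g.erase z.1).erase z.2, h0 r y ≤ 1 := prod_le_one
    (fun r _ => by rcases h001 r y with h | h <;> rw [h] ; norm_num)
    (fun r _ => by rcases h001 r y with h | h <;> rw [h] ; norm_num)
  have h4 : 0 ≤ ∏ r ∈ (g.erase z.1).erase z.2, h0 r y := prod_nonneg fun r _ => by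
    rcases h001 r y with h | h <;> rw [h] ; norm_num
  rcases hs01 false z.1 y with h | h <;> rcases hs01 true z.2 y with h' | h' <;> rw [h, h'] <;>
    linarith

theorem DD_ne {g : Finset ℕ} {z : ℕ × ℕ} {y : ℕ} (h : DD g z y ≠ 0) :
    (y + 1) % z.1 = 0 ∧ y % z.2 = 2 ∧ ∀ r ∈ g, (y + 1) % r = 0 ∨ y % r = 2 → r = z.1 ∨ r = z.2 := by
  unfold DD at h
  have h1 : hs false z.1 y ≠ 0 := fun e => h (by rw [e]; ring)
  have h2 : hs true z.2 y ≠ 0 := fun e => h (by rw [e]; ring)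
  have h3 : ∏ r ∈ (g.erase z.1).erase z.2, h0 r y ≠ 0 := fun e => h (by rw [e]; ring)
  refine ⟨?_, ?_, ?_⟩
  · by_contra hc
    apply h1
    unfold hs
    simp [hc]
  · by_contra hc
    apply h2
    unfold hs
    simp [hc]
  · intro r hr hra
    by_contra hc
    push Not at hc
    rw [prod_ne_zero_iff] at h3
    have h4 := h3 r (mem_erase.2 ⟨hc.2, mem_erase.2 ⟨hc.1, hr⟩⟩)
    apply h4
    unfold h0
    rw [if_pos hra]

theorem DD_disj {g : Finset ℕ} (hg : ∀ p ∈ g, p.Prime ∧ 3 < p) {z z' : ℕ × ℕ} {y : ℕ}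
    (h : DD g z y ≠ 0) (h' : DD g z' y ≠ 0) (h1 : z.1 ∈ g) (h2 : z.2 ∈ g) (h1' : z'.1 ∈ g)
    (h2' : z'.2 ∈ g) : z' = z := by
  have a := DD_ne h
  have a' := DD_ne h'
  have e1 : z'.1 = z.1 := by
    rcases a.2.2 z'.1 h1' (Or.inl a'.1) with e | e
    · exact e
    · exfalso
      have h3 := a'.1
      rw [e] at h3
      exact mod_excl (hg _ h2).2 h3 a.2.1
  have e2 : z'.2 = z.2 := by
    rcases a.2.2 z'.2 h2' (Or.inr a'.2.1) with e | e
    · exfalso
      have h3 := a'.2.1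
      rw [e] at h3
      exact mod_excl (hg _ h1).2 a.1 h3
    · exact e
  exact Prod.ext e1 e2

theorem suc_ge (b1 g : Finset ℕ) (hbg : b1 ⊆ g) (hg : ∀ p ∈ g, p.Prime ∧ 3 < p)
    (l : List (ℕ × Bool)) (y : ℕ) :
    ∑ z ∈ (b1 ×ˢ g).filter (fun z => z.1 ≠ z.2), DD g z y * (if 0 < NN l z then 1 else 0)
      ≤ si b1 g l y := by
  have hsi : 0 ≤ si b1 g l y := by
    unfold si
    split <;> norm_num
  by_cases hall : ∀ z ∈ (b1 ×ˢ g).filter (fun z => z.1 ≠ z.2),
      DD g z y * (if 0 < NN l z then (1 : ℝ) else 0) = 0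
  · rw [sum_eq_zero hall]
    exact hsi
  · push Not at hall
    obtain ⟨z, hz, hne⟩ := hall
    have hD : DD g z y ≠ 0 := fun e => hne (by rw [e, zero_mul])
    have hN : 0 < NN l z := by
      by_contra hc
      exact hne (by rw [if_neg hc, mul_zero])
    have hz' := mem_filter.1 hz
    have hz'' := mem_product.1 hz'.1
    rw [sum_eq_single_of_mem z hz]
    · rw [if_pos hN, mul_one]
      refine (DD_le g z y).trans ?_
      have hS : Suc b1 g l y := by
        obtain ⟨v, hv, hgv⟩ := EE_pos_ex l _ hN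
        refine ⟨v, hv, z.1, hz''.1, z.2, hz''.2, hz'.2, (DD_ne hD).1, (DD_ne hD).2.1, ?_⟩
        by_contra hc
        unfold gi at hgv
        rw [if_neg hc] at hgv
        exact lt_irrefl _ hgv
      unfold si
      rw [if_pos hS]
    · intro z' hz1 hzz
      have hz2 := mem_filter.1 hz1
      have hz3 := mem_product.1 hz2.1
      by_cases hD' : DD g z' y = 0
      · rw [hD', zero_mul]
      · exact absurd (DD_disj hg hD hD' (hbg hz''.1) hz''.2 (hbg hz3.1) hz3.2) hzz

theorem log4 : Real.log 4 = 2 * Real.log 2 := by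
  rw [show (4 : ℝ) = 2 ^ 2 by norm_num, Real.log_pow]
  norm_num

/-- a good triple lies in a short window -/
theorem gd_log {v : ℕ × ℕ} {p p' : ℕ} (hv1 : 0 < v.1) (hv2 : 0 < v.2) (hp : 0 < p) (hp' : 0 < p')
    (h : gd v p p') : Real.log 2 < LL v + Real.log p' - Real.log p ∧
      LL v + Real.log p' - Real.log p < 2 * Real.log 2 := by
  have hv1' : (0 : ℝ) < v.1 := by exact_mod_cast hv1
  have hv2' : (0 : ℝ) < v.2 := by exact_mod_cast hv2
  have hp0 : (0 : ℝ) < p := by exact_mod_cast hp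
  have hp0' : (0 : ℝ) < p' := by exact_mod_cast hp'
  have h1 : (2 : ℝ) * (v.1 * p) < v.2 * p' := by exact_mod_cast h.1
  have h2 : (v.2 : ℝ) * p' < 4 * (v.1 * p) := by exact_mod_cast h.2.1
  have h3 := Real.log_lt_log (by positivity) h1
  have h4 := Real.log_lt_log (by positivity) h2
  rw [Real.log_mul (by norm_num) (by positivity), Real.log_mul hv1'.ne' hp0.ne',
    Real.log_mul hv2'.ne' hp0'.ne'] at h3
  rw [Real.log_mul hv2'.ne' hp0'.ne', Real.log_mul (by norm_num) (by positivity),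
    Real.log_mul hv1'.ne' hp0.ne', log4] at h4
  unfold LL
  constructor <;> linarith

theorem ic_one {r : ℝ} (h1 : -1 ≤ r) (h2 : r ≤ 1) : ic r = 1 := by
  unfold ic
  rw [if_pos (abs_le.2 ⟨h1, h2⟩)]

theorem gi_gi {v w : ℕ × ℕ} {p p' : ℕ} (hv1 : 0 < v.1) (hv2 : 0 < v.2) (hw1 : 0 < w.1)
    (hw2 : 0 < w.2) (hp : 0 < p) (hp' : 0 < p') :
    gi v p p' * gi w p p' ≤ ic (LL v - LL w + 0) * ic (LL v - Real.log p - 1 + Real.log p') := by
  have l1 := Real.log_two_gt_d9
  have l2 := Real.log_two_lt_d9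
  have hn : 0 ≤ ic (LL v - LL w + 0) * ic (LL v - Real.log p - 1 + Real.log p') :=
    mul_nonneg (ic_nonneg _) (ic_nonneg _)
  by_cases h1 : gd v p p'
  · by_cases h2 : gd w p p'
    · have a1 := gd_log hv1 hv2 hp hp' h1
      have a2 := gd_log hw1 hw2 hp hp' h2
      rw [ic_one (by linarith [a1.1, a2.2]) (by linarith [a1.2, a2.1]),
        ic_one (by linarith [a1.1]) (by linarith [a1.2])]
      unfold gi
      rw [if_pos h1, if_pos h2]
    · have : gi w p p' = 0 := by unfold gi; rw [if_neg h2]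
      rw [this, mul_zero]
      exact hn
  · have : gi v p p' = 0 := by unfold gi; rw [if_neg h1]
    rw [this, zero_mul]
    exact hn

/-- the success probability of one attempt -/
theorem att (b1 g : Finset ℕ) (hbg : b1 ⊆ g) (hg : ∀ p ∈ g, p.Prime ∧ 3 < p)
    (l : List (ℕ × Bool)) (hl : ∀ a ∈ l, 0 < a.1) {lam c C : ℝ} (hlam : 0 < lam) (hc : 0 < c)
    (hC : 0 < C) (hS1 : 191 / 10000 ≤ ∑ p ∈ b1, 1 / (p : ℝ))
    (hS2 : ∑ p ∈ g, 1 / (p : ℝ) ≤ 615 / 10000)
    (hB : ∀ z : ℝ, ∑ p ∈ g, 1 / (p : ℝ) * ic (z + Real.log p) ≤ C / lam)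
    (hcc : ∀ v, Vl l v → ∀ p ∈ b1, c / lam ≤ ∑ p' ∈ g.erase p, 1 / (p' : ℝ) * gi v p p') :
    c ^ 2 / (100 * C) ≤ av (∏ p ∈ g, p) (si b1 g l) * (lam * uu l 0) := by
  have hM : 0 < ∏ p ∈ g, p := prod_pos fun p hp => (hg p hp).1.pos
  have hpos := Vl_pos l hl
  set T := (b1 ×ˢ g).filter (fun z => z.1 ≠ z.2) with hT
  have hTm : ∀ z ∈ T, z.1 ∈ b1 ∧ z.2 ∈ g ∧ z.1 ≠ z.2 := fun z hz =>
    ⟨(mem_product.1 (mem_filter.1 hz).1).1, (mem_product.1 (mem_filter.1 hz).1).2,
      (mem_filter.1 hz).2⟩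
  -- probability
  have hP : ∑ z ∈ T, w2 g z * (if 0 < NN l z then 1 else 0) ≤ av (∏ p ∈ g, p) (si b1 g l) := by
    have h1 : ∑ z ∈ T, w2 g z * (if 0 < NN l z then 1 else 0)
        = av (∏ p ∈ g, p) (fun y => ∑ z ∈ T, DD g z y * (if 0 < NN l z then 1 else 0)) := by
      rw [av_sum]
      refine sum_congr rfl fun z hz => ?_
      rw [av_mul', ← av_DD g hg z (hbg (hTm z hz).1) (hTm z hz).2.1 (hTm z hz).2.2]
    rw [h1]
    exact av_mono fun y => suc_ge b1 g hbg hg l y
  have hw0 : ∀ z, 0 ≤ w2 g z := fun z => by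
    have h := (prod_ge ((g.erase z.1).erase z.2)
      fun q hq => hg q (mem_of_mem_erase (mem_of_mem_erase hq))).2.2
    unfold w2
    positivity
  have hwle : ∀ z, w2 g z ≤ 1 / (z.1 : ℝ) * (1 / (z.2 : ℝ)) := fun z => by
    have h := (prod_ge ((g.erase z.1).erase z.2)
      fun q hq => hg q (mem_of_mem_erase (mem_of_mem_erase hq))).2.1
    unfold w2
    have h1 : (0 : ℝ) ≤ 1 / (z.1 : ℝ) * (1 / (z.2 : ℝ)) := by positivity
    have h2 := mul_le_mul_of_nonneg_left h h1
    linarith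
  have hwge : ∀ z, 877 / 1000 * (1 / (z.1 : ℝ) * (1 / (z.2 : ℝ))) ≤ w2 g z := fun z => by
    have h := (prod_ge ((g.erase z.1).erase z.2)
      fun q hq => hg q (mem_of_mem_erase (mem_of_mem_erase hq))).1
    have h3 : ∑ r ∈ (g.erase z.1).erase z.2, 2 / (r : ℝ) ≤ 2 * ∑ r ∈ g, 1 / (r : ℝ) := by
      rw [mul_sum]
      calc ∑ r ∈ (g.erase z.1).erase z.2, 2 / (r : ℝ) ≤ ∑ r ∈ g, 2 / (r : ℝ) :=
            sum_le_sum_of_subset_of_nonneg ((erase_subset _ _).trans (erase_subset _ _))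
              fun r _ _ => by positivity
        _ = _ := sum_congr rfl fun r _ => by ring
    unfold w2
    have h1 : (0 : ℝ) ≤ 1 / (z.1 : ℝ) * (1 / (z.2 : ℝ)) := by positivity
    have h4 : (877 : ℝ) / 1000 ≤ ∏ r ∈ (g.erase z.1).erase z.2, (1 - 2 / (r : ℝ)) := by linarith
    have h2 := mul_le_mul_of_nonneg_left h4 h1
    linarith
  -- Cauchy and Schwarz
  have hCS : (∑ z ∈ T, w2 g z * NN l z) ^ 2
      ≤ (∑ z ∈ T, w2 g z * (if 0 < NN l z then 1 else 0)) * ∑ z ∈ T, w2 g z * NN l z ^ 2 := by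
    apply sum_sq_le_sum_mul_sum_of_sq_le_mul
    · intro z _
      have := hw0 z
      split <;> simp [this]
    · intro z _
      have := hw0 z
      positivity
    · intro z _
      apply le_of_eq
      by_cases h : 0 < NN l z
      · rw [if_pos h]
        ring
      · have h' : NN l z = 0 := le_antisymm (not_lt.1 h) (NN_nonneg l z)
        rw [h']
        ring
  set S := ∑ p ∈ b1, 1 / (p : ℝ) with hS
  have hS0 : 0 < S := by linarith
  -- lower bound for the first moment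
  have hlow : 877 / 1000 * (S * (c / lam)) ≤ ∑ z ∈ T, w2 g z * NN l z := by
    have h1 : ∑ z ∈ T, w2 g z * NN l z
        = EE l (fun v => ∑ z ∈ T, w2 g z * gi v z.1 z.2) := by
      rw [EE_sum]
      exact sum_congr rfl fun z _ => (EE_mul l _ _).symm
    have h2 : ∀ v, Vl l v → 877 / 1000 * (S * (c / lam)) ≤ ∑ z ∈ T, w2 g z * gi v z.1 z.2 := by
      intro v hv
      have h3 : ∑ z ∈ T, 877 / 1000 * (1 / (z.1 : ℝ) * (1 / (z.2 : ℝ))) * gi v z.1 z.2
          ≤ ∑ z ∈ T, w2 g z * gi v z.1 z.2 :=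
        sum_le_sum fun z _ => mul_le_mul_of_nonneg_right (hwge z) (gi_nonneg _ _ _)
      have h4 : ∑ z ∈ T, 877 / 1000 * (1 / (z.1 : ℝ) * (1 / (z.2 : ℝ))) * gi v z.1 z.2
          = ∑ p ∈ b1, 877 / 1000 * (1 / (p : ℝ)
            * ∑ p' ∈ g.erase p, 1 / (p' : ℝ) * gi v p p') := by
        rw [hT, sum_filter, sum_product]
        refine sum_congr rfl fun p hp => ?_
        rw [mul_sum, mul_sum, ← sum_filter]
        have e : g.filter (fun x => p ≠ x) = g.erase p := by
          ext x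
          rw [mem_filter, mem_erase]
          constructor
          · rintro ⟨a, b⟩; exact ⟨b.symm, a⟩
          · rintro ⟨a, b⟩; exact ⟨b, a.symm⟩
        rw [e]
        exact sum_congr rfl fun p' _ => by ring
      have h5 : 877 / 1000 * (S * (c / lam)) ≤ ∑ p ∈ b1, 877 / 1000 * (1 / (p : ℝ)
            * ∑ p' ∈ g.erase p, 1 / (p' : ℝ) * gi v p p') := by
        rw [hS, sum_mul, mul_sum]
        refine sum_le_sum fun p hp => ?_
        have h6 := hcc v hv p hp
        have h7 : (0 : ℝ) ≤ 1 / (p : ℝ) := by positivity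
        have h8 := mul_le_mul_of_nonneg_left h6 h7
        linarith
      linarith
    rw [h1]
    have h9 := EE_mono l (fun _ => 877 / 1000 * (S * (c / lam)))
      (fun v => ∑ z ∈ T, w2 g z * gi v z.1 z.2) h2
    rwa [EE_const] at h9
  -- upper bound for the second moment
  have hup : ∑ z ∈ T, w2 g z * NN l z ^ 2 ≤ uu l 0 * (S * (C / lam)) := by
    have h1 : ∀ z ∈ T, w2 g z * NN l z ^ 2 ≤ EE l (fun v => EE l (fun w =>
        1 / (z.1 : ℝ) * (1 / (z.2 : ℝ)) * (ic (LL v - LL w + 0)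
          * ic (LL v - Real.log z.1 - 1 + Real.log z.2)))) := by
      intro z hz
      have hz1 := (hg z.1 (hbg (hTm z hz).1)).1.pos
      have hz2 := (hg z.2 (hTm z hz).2.1).1.pos
      have h2 : NN l z ^ 2 = EE l (fun v => EE l (fun w => gi v z.1 z.2 * gi w z.1 z.2)) := by
        have e1 : (fun v : ℕ × ℕ => EE l (fun w => gi v z.1 z.2 * gi w z.1 z.2))
            = fun v => NN l z * gi v z.1 z.2 := by
          funext v
          rw [EE_mul, mul_comm]
          rfl
        rw [e1, EE_mul, pow_two]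
        rfl
      have h3 : NN l z ^ 2 ≤ EE l (fun v => EE l (fun w => ic (LL v - LL w + 0)
          * ic (LL v - Real.log z.1 - 1 + Real.log z.2))) := by
        rw [h2]
        exact EE_mono l _ _ fun v hv => EE_mono l _ _ fun w hw =>
          gi_gi (hpos v hv).1 (hpos v hv).2 (hpos w hw).1 (hpos w hw).2 hz1 hz2
      have h4 : EE l (fun v => EE l (fun w =>
        1 / (z.1 : ℝ) * (1 / (z.2 : ℝ)) * (ic (LL v - LL w + 0)
          * ic (LL v - Real.log z.1 - 1 + Real.log z.2))))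
          = 1 / (z.1 : ℝ) * (1 / (z.2 : ℝ)) * EE l (fun v => EE l (fun w => ic (LL v - LL w + 0)
          * ic (LL v - Real.log z.1 - 1 + Real.log z.2))) := by
        rw [← EE_mul]
        congr 1
        funext v
        exact EE_mul l _ _
      rw [h4]
      have h5 : (0 : ℝ) ≤ NN l z ^ 2 := sq_nonneg _
      calc w2 g z * NN l z ^ 2 ≤ 1 / (z.1 : ℝ) * (1 / (z.2 : ℝ)) * NN l z ^ 2 :=
            mul_le_mul_of_nonneg_right (hwle z) h5
        _ ≤ _ := mul_le_mul_of_nonneg_left h3 (by positivity)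
    have h6 : ∀ v w : ℕ × ℕ, ∑ z ∈ T, 1 / (z.1 : ℝ) * (1 / (z.2 : ℝ)) * (ic (LL v - LL w + 0)
          * ic (LL v - Real.log z.1 - 1 + Real.log z.2))
          ≤ S * (C / lam) * ic (LL v - LL w + 0) := by
      intro v w
      have h7 : ∑ z ∈ T, 1 / (z.1 : ℝ) * (1 / (z.2 : ℝ)) * (ic (LL v - LL w + 0)
          * ic (LL v - Real.log z.1 - 1 + Real.log z.2))
          ≤ ∑ z ∈ b1 ×ˢ g, 1 / (z.1 : ℝ) * (1 / (z.2 : ℝ)) * (ic (LL v - LL w + 0)
          * ic (LL v - Real.log z.1 - 1 + Real.log z.2)) := by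
        refine sum_le_sum_of_subset_of_nonneg (filter_subset _ _) fun z _ _ => ?_
        have := ic_nonneg (LL v - LL w + 0)
        have := ic_nonneg (LL v - Real.log z.1 - 1 + Real.log z.2)
        positivity
      refine h7.trans ?_
      rw [sum_product, hS, sum_mul, sum_mul]
      refine sum_le_sum fun p _ => ?_
      have h8 := hB (LL v - Real.log p - 1)
      have h9 := ic_nonneg (LL v - LL w + 0)
      have h10 : ∑ p' ∈ g, 1 / (p : ℝ) * (1 / (p' : ℝ)) * (ic (LL v - LL w + 0)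
          * ic (LL v - Real.log p - 1 + Real.log p'))
          = 1 / (p : ℝ) * ic (LL v - LL w + 0)
            * ∑ p' ∈ g, 1 / (p' : ℝ) * ic (LL v - Real.log p - 1 + Real.log p') := by
        rw [mul_sum]
        exact sum_congr rfl fun p' _ => by ring
      rw [h10]
      calc _ ≤ 1 / (p : ℝ) * ic (LL v - LL w + 0) * (C / lam) :=
            mul_le_mul_of_nonneg_left h8 (by positivity)
        _ = _ := by ring
    calc ∑ z ∈ T, w2 g z * NN l z ^ 2
        ≤ ∑ z ∈ T, EE l (fun v => EE l (fun w =>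
        1 / (z.1 : ℝ) * (1 / (z.2 : ℝ)) * (ic (LL v - LL w + 0)
          * ic (LL v - Real.log z.1 - 1 + Real.log z.2)))) := sum_le_sum h1
      _ = EE l (fun v => EE l (fun w => ∑ z ∈ T, 1 / (z.1 : ℝ) * (1 / (z.2 : ℝ))
          * (ic (LL v - LL w + 0) * ic (LL v - Real.log z.1 - 1 + Real.log z.2)))) := by
        rw [← EE_sum]
        congr 1
        funext v
        exact (EE_sum l T _).symm
      _ ≤ EE l (fun v => EE l (fun w => S * (C / lam) * ic (LL v - LL w + 0))) :=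
        EE_mono l _ _ fun v _ => EE_mono l _ _ fun w _ => h6 v w
      _ = uu l 0 * (S * (C / lam)) := by
        unfold uu
        rw [mul_comm (EE l _) (S * (C / lam)), ← EE_mul]
        congr 1
        funext v
        exact EE_mul l _ _
  -- conclusion
  set P := av (∏ p ∈ g, p) (si b1 g l) with hPd
  have hW0 : 0 ≤ ∑ z ∈ T, w2 g z * NN l z ^ 2 := sum_nonneg fun z _ => by
    have := hw0 z
    positivity
  have hP0 : 0 ≤ P := le_trans (sum_nonneg fun z _ => by
    have := hw0 z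
    split <;> simp [this]) hP
  have hU0 := uu_nonneg l 0
  have h11 : (877 / 1000 * (S * (c / lam))) ^ 2 ≤ P * (uu l 0 * (S * (C / lam))) := by
    calc (877 / 1000 * (S * (c / lam))) ^ 2 ≤ (∑ z ∈ T, w2 g z * NN l z) ^ 2 := by
          apply pow_le_pow_left₀ (by positivity) hlow
      _ ≤ _ := hCS
      _ ≤ P * ∑ z ∈ T, w2 g z * NN l z ^ 2 := mul_le_mul_of_nonneg_right hP hW0
      _ ≤ _ := mul_le_mul_of_nonneg_left hup hP0
  have h12 : (877 / 1000) ^ 2 * S * c ^ 2 ≤ P * (lam * uu l 0) * C := by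
    have h13 : 0 < lam ^ 2 / S := by positivity
    have h14 := mul_le_mul_of_nonneg_right h11 h13.le
    have e1 : (877 / 1000 * (S * (c / lam))) ^ 2 * (lam ^ 2 / S) = (877 / 1000) ^ 2 * S * c ^ 2 := by
      field_simp
    have e2 : P * (uu l 0 * (S * (C / lam))) * (lam ^ 2 / S) = P * (lam * uu l 0) * C := by
      field_simp
    rw [e1, e2] at h14
    exact h14
  rw [div_le_iff₀ (by positivity)]
  have h15 : 0 < c ^ 2 := by positivity
  nlinarith

end Pool.Agent.SHP
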