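import Pool.Agent.SHP.Chain
import Pool.Agent.PC.PNTAP
import Pool.Agent.CU.LinG

/-!
# The analytic hypotheses of the chain
-/

set_option autoImplicit false

namespace Pool.Agent.SHP

open Finset Filter

/-! ### the blocks as intervals -/

theorem W_eq (L : ℝ) (a b : ℕ) :
    W L a b = (Ioc ⌊Real.exp (la L a)⌋₊ ⌊Real.exp (la L b)⌋₊).filter Nat.Prime := by
  ext p
  rw [mem_W, mem_filter, mem_Ioc]
  constructor
  · rintro ⟨hp, h1, h2⟩
    have hp0 : (0 : ℝ) < p := by exact_mod_cast hp.pos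
    refine ⟨⟨?_, ?_⟩, hp⟩
    · refine (Nat.floor_lt (Real.exp_pos _).le).2 ?_
      rwa [← Real.lt_log_iff_exp_lt hp0]
    · refine (Nat.le_floor_iff (Real.exp_pos _).le).2 ?_
      rwa [← Real.log_le_iff_le_exp hp0]
  · rintro ⟨⟨h1, h2⟩, hp⟩
    have hp0 : (0 : ℝ) < p := by exact_mod_cast hp.pos
    refine ⟨hp, ?_, ?_⟩
    · rw [Real.lt_log_iff_exp_lt hp0]
      exact (Nat.floor_lt (Real.exp_pos _).le).1 h1
    · rw [Real.log_le_iff_le_exp hp0]
      exact (Nat.le_floor_iff (Real.exp_pos _).le).1 h2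

/-- the logarithm of the integral part of an exponential -/
theorem log_floor {a : ℝ} (ha : 1 ≤ a) :
    a - 1 ≤ Real.log ⌊Real.exp a⌋₊ ∧ Real.log ⌊Real.exp a⌋₊ ≤ a := by
  have h0 := Real.exp_pos a
  have h1 : (⌊Real.exp a⌋₊ : ℝ) ≤ Real.exp a := Nat.floor_le h0.le
  have h2 : Real.exp a < ⌊Real.exp a⌋₊ + 1 := Nat.lt_floor_add_one _
  have h3 : Real.exp a = Real.exp (a - 1) * Real.exp 1 := by
    rw [← Real.exp_add]
    congr 1
    ring
  have h4 := Real.exp_one_gt_d9
  have h5 : 1 ≤ Real.exp (a - 1) := Real.one_le_exp (by linarith)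
  have h6 : Real.exp (a - 1) ≤ ⌊Real.exp a⌋₊ := by
    have : Real.exp (a - 1) * 2 ≤ Real.exp a := by
      rw [h3]
      exact mul_le_mul_of_nonneg_left (by linarith) (by linarith)
    linarith
  have h7 : (0 : ℝ) < ⌊Real.exp a⌋₊ := by linarith
  constructor
  · rw [Real.le_log_iff_exp_le h7]
    exact h6
  · rw [Real.log_le_iff_le_exp h7]
    exact h1

/-! ### the sums over a block -/

theorem nt_S : ∃ L0 : ℝ, ∀ L : ℝ, L0 ≤ L → ∀ k : ℕ,
    191 / 10000 ≤ ∑ p ∈ W L k (k + 1), 1 / (p : ℝ) ∧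
      ∑ p ∈ W L k (k + 1), 1 / (p : ℝ) ≤ 205 / 10000 := by
  obtain ⟨X0, hX0⟩ := eventually_atTop.1
    (Pool.Agent.CU.ling_mert1 (9 / 10) (1 / 10000) (by norm_num) (by norm_num))
  refine ⟨max 100000 (X0 + 1), fun L hL k => ?_⟩
  have hL1 : 100000 ≤ L := (le_max_left _ _).trans hL
  have hL2 : (X0 : ℝ) + 1 ≤ L := (le_max_right _ _).trans hL
  have hL0 : 0 < L := by linarith
  set a := la L k with ha
  have hak : L ≤ a := la_ge hL0 k
  have hb : la L (k + 1) = 51 / 50 * a := la_succ L k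
  rw [W_eq, ← ha, hb]
  set u := ⌊Real.exp a⌋₊ with hu
  set v := ⌊Real.exp (51 / 50 * a)⌋₊ with hv
  have hlu := log_floor (a := a) (by linarith)
  have hlv := log_floor (a := 51 / 50 * a) (by linarith)
  rw [← hu] at hlu
  rw [← hv] at hlv
  have hXv : X0 ≤ v := by
    refine Nat.le_floor ?_
    have h1 := Real.add_one_le_exp (51 / 50 * a)
    linarith
  have huv : u ≤ v := Nat.floor_le_floor (Real.exp_le_exp.2 (by linarith))
  have hu1 : ⌊(v : ℝ) ^ (9 / 10 : ℝ)⌋₊ ≤ u := by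
    refine Nat.floor_le_floor ?_
    have h1 : (v : ℝ) ≤ Real.exp (51 / 50 * a) := Nat.floor_le (Real.exp_pos _).le
    have h2 : (v : ℝ) ^ (9 / 10 : ℝ) ≤ Real.exp (51 / 50 * a) ^ (9 / 10 : ℝ) :=
      Real.rpow_le_rpow (Nat.cast_nonneg _) h1 (by norm_num)
    refine h2.trans ?_
    rw [← Real.exp_mul]
    exact Real.exp_le_exp.2 (by linarith)
  have h1 := abs_le.1 (hX0 v hXv u v hu1 huv le_rfl)
  have hlu0 : 0 < Real.log u := by linarith
  have hlv0 : 0 < Real.log v := by linarith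
  -- the quotient of the logarithms
  have h2 : Real.log v / Real.log u ≤ 10201 / 10000 := by
    rw [div_le_iff₀ hlu0]
    linarith
  have h3 : 10199 / 10000 ≤ Real.log v / Real.log u := by
    rw [le_div_iff₀ hlu0]
    linarith
  have h4 : 0 < Real.log v / Real.log u := by positivity
  have h5 : Real.log (Real.log v / Real.log u) ≤ 201 / 10000 := by
    have := Real.log_le_sub_one_of_pos h4
    linarith
  have h6 : 195 / 10000 ≤ Real.log (Real.log v / Real.log u) := by
    have := Real.one_sub_inv_le_log_of_pos h4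
    have h7 : (Real.log v / Real.log u)⁻¹ ≤ (10199 / 10000)⁻¹ := inv_anti₀ (by norm_num) h3
    have h8 : ((10199 : ℝ) / 10000)⁻¹ = 10000 / 10199 := by norm_num
    rw [h8] at h7
    linarith
  constructor <;> linarith

/-! ### short windows -/

theorem nt_B {L : ℝ} (hL : 2 ≤ L) (k : ℕ) (z : ℝ) :
    ∑ p ∈ W L k (k + 1), 1 / (p : ℝ) * ic (z + Real.log p) ≤ 12 / la L k := by
  have hL0 : 0 < L := by linarith
  have ha := la_pos hL0 k
  set Y := Real.exp (-z - 1) with hY
  have hY0 : 0 < Y := Real.exp_pos _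
  set x := Real.exp (-z + 1) with hx
  have hx0 : 0 < x := Real.exp_pos _
  have hxY : x = Y * Real.exp 2 := by
    rw [hx, hY, ← Real.exp_add]
    congr 1
    ring
  have h1 : ∑ p ∈ W L k (k + 1), 1 / (p : ℝ) * ic (z + Real.log p) ≤
      ∑ p ∈ (Ioc 0 ⌊x⌋₊).filter Nat.Prime, 1 / (Y * la L k) * Real.log p := by
    have e1 : ∑ p ∈ W L k (k + 1), 1 / (p : ℝ) * ic (z + Real.log p) =
        ∑ p ∈ (W L k (k + 1)).filter (fun p : ℕ => |z + Real.log p| ≤ 1),
          1 / (p : ℝ) := by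
      rw [sum_filter]
      refine sum_congr rfl fun p _ => ?_
      unfold ic
      by_cases h : |z + Real.log p| ≤ 1
      · rw [if_pos h, if_pos h, mul_one]
      · rw [if_neg h, if_neg h, mul_zero]
    rw [e1]
    refine (sum_le_sum (g := fun p : ℕ => 1 / (Y * la L k) * Real.log (p : ℝ)) fun p hp => ?_).trans
      (sum_le_sum_of_subset_of_nonneg (fun p hp => ?_) fun p hp _ => ?_)
    · have hp' := mem_filter.1 hp
      have hw := mem_W.1 hp'.1
      have hp0 : (0 : ℝ) < p := by exact_mod_cast hw.1.pos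
      have h2 := (abs_le.1 hp'.2).1
      have h3 : Y ≤ p := by
        rw [hY, ← Real.le_log_iff_exp_le hp0]
        linarith
      rw [div_mul_eq_mul_div, one_mul, div_le_div_iff₀ hp0 (by positivity), one_mul]
      calc Y * la L k ≤ p * la L k := mul_le_mul_of_nonneg_right h3 ha.le
        _ ≤ p * Real.log p := mul_le_mul_of_nonneg_left hw.2.1.le hp0.le
        _ = _ := mul_comm _ _
    · have hp' := mem_filter.1 hp
      have hw := mem_W.1 hp'.1
      have hp0 : (0 : ℝ) < p := by exact_mod_cast hw.1.pos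
      have h2 := (abs_le.1 hp'.2).2
      refine mem_filter.2 ⟨mem_Ioc.2 ⟨hw.1.pos, Nat.le_floor ?_⟩, hw.1⟩
      rw [hx, ← Real.log_le_iff_le_exp hp0]
      linarith
    · have hp' := mem_filter.1 hp
      have h2 : (0 : ℝ) ≤ Real.log p := Real.log_natCast_nonneg p
      positivity
  refine h1.trans ?_
  rw [← mul_sum]
  have h2 : ∑ p ∈ (Ioc 0 ⌊x⌋₊).filter Nat.Prime, Real.log p ≤ Real.log 4 * x :=
    Chebyshev.theta_le_log4_mul_x hx0.le
  have h3 : Real.log 4 ≤ 14 / 10 := by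
    have := Real.log_two_lt_d9
    rw [log4]
    linarith
  have h4 : Real.exp 2 ≤ 75 / 10 := by
    have h5 := Real.exp_one_lt_d9
    have h6 : Real.exp 2 = Real.exp 1 * Real.exp 1 := by
      rw [← Real.exp_add]
      norm_num
    have h7 := Real.exp_pos 1
    rw [h6]
    nlinarith
  calc 1 / (Y * la L k) * ∑ p ∈ (Ioc 0 ⌊x⌋₊).filter Nat.Prime, Real.log p
      ≤ 1 / (Y * la L k) * (Real.log 4 * x) := mul_le_mul_of_nonneg_left h2 (by positivity)
    _ = Real.log 4 * Real.exp 2 / la L k := by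
        rw [hxY]
        field_simp
    _ ≤ 12 / la L k := by
        refine div_le_div_of_nonneg_right ?_ ha.le
        have h8 := Real.exp_pos 2
        nlinarith

end Pool.Agent.SHP
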