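import Pool.Agent.SHP.Chain

/-!
# Exponential decay of the failure probability
-/

set_option autoImplicit false

namespace Pool.Agent.SHP

open Finset

theorem si01 (b1 g : Finset ℕ) (l : List (ℕ × Bool)) (y : ℕ) : 0 ≤ si b1 g l y ∧ si b1 g l y ≤ 1 := by
  unfold si
  split <;> norm_num

/-- indicator of success at stage `k`, with state `l` and residues `y` -/
noncomputable def sk (L : ℝ) (r k : ℕ) (l : List (ℕ × Bool)) (y : ℕ) : ℝ :=
  si (W L (k + r + 1) (k + r + 2)) (W L (k + r) (k + r + 3)) l y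

/-- indicator of no success in the first `n` attempts -/
noncomputable def G (L : ℝ) (r : ℕ) : ℕ → ℕ → ℝ
  | 0, _ => 1
  | n + 1, x => G L r n x * (1 - sk L r ((r + 3) * n) (st L ((r + 3) * n) x) x)

theorem G01 (L : ℝ) (r n x : ℕ) : 0 ≤ G L r n x ∧ G L r n x ≤ 1 := by
  induction n with
  | zero => exact ⟨zero_le_one, le_rfl⟩
  | succ n ih =>
    have h := si01 (W L ((r + 3) * n + r + 1) ((r + 3) * n + r + 2))
      (W L ((r + 3) * n + r) ((r + 3) * n + r + 3)) (st L ((r + 3) * n) x) x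
    show 0 ≤ G L r n x * (1 - sk L r ((r + 3) * n) (st L ((r + 3) * n) x) x) ∧
      G L r n x * (1 - sk L r ((r + 3) * n) (st L ((r + 3) * n) x) x) ≤ 1
    have h' : 0 ≤ sk L r ((r + 3) * n) (st L ((r + 3) * n) x) x ∧
      sk L r ((r + 3) * n) (st L ((r + 3) * n) x) x ≤ 1 := h
    constructor
    · exact mul_nonneg ih.1 (by linarith [h'.2])
    · nlinarith [ih.1, ih.2, h'.1, h'.2]

theorem sub_W {L : ℝ} (hL : 0 < L) (k r : ℕ) :
    W L (k + r + 1) (k + r + 2) ⊆ W L (k + r) (k + r + 3) := by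
  intro p hp
  have h1 := mem_W.1 hp
  have m1 : la L (k + r) ≤ la L (k + r + 1) := la_mono hL (by omega)
  have m2 : la L (k + r + 2) ≤ la L (k + r + 3) := la_mono hL (by omega)
  exact mem_W.2 ⟨h1.1, by linarith [h1.2.1], by linarith [h1.2.2]⟩

theorem sk_pe {L : ℝ} (hL : 0 < L) (r k : ℕ) (l : List (ℕ × Bool)) :
    Pe (MM L k (k + (r + 3))) (sk L r k l) := by
  have h2 : MM L k (k + (r + 3)) = MM L k (k + r) * MM L (k + r) (k + r + 3) :=
    MM_mul hL (by omega) (by omega)
  exact (suc_pe _ _ (sub_W hL k r) l).of_dvd (Dvd.intro_left _ h2.symm)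

theorem st_pe {L : ℝ} (hL : 0 < L) (k : ℕ) : Pe (MM L 0 k) (st L k) := by
  have h := run_pe hL 0 k []
  rw [Nat.zero_add] at h
  exact h

theorem MM_zero (L : ℝ) (k m : ℕ) (hL : 0 < L) : MM L 0 (k + m) = MM L 0 k * MM L k (k + m) :=
  MM_mul hL (Nat.zero_le _) (by omega)

theorem G_pe {L : ℝ} (hL : 0 < L) (r n : ℕ) : Pe (MM L 0 ((r + 3) * n)) (G L r n) := by
  induction n with
  | zero => intro x; rfl
  | succ n ih =>
    intro x
    have h1 : MM L 0 ((r + 3) * (n + 1)) = MM L 0 ((r + 3) * n) *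
        MM L ((r + 3) * n) ((r + 3) * n + (r + 3)) := by
      rw [show (r + 3) * (n + 1) = (r + 3) * n + (r + 3) by ring]
      exact MM_zero L _ _ hL
    show G L r n (x + MM L 0 ((r + 3) * (n + 1))) * (1 - sk L r ((r + 3) * n)
      (st L ((r + 3) * n) (x + MM L 0 ((r + 3) * (n + 1)))) (x + MM L 0 ((r + 3) * (n + 1))))
      = G L r n x * (1 - sk L r ((r + 3) * n) (st L ((r + 3) * n) x) x)
    rw [(ih.of_dvd (Dvd.intro _ h1.symm)) x,
      ((st_pe hL ((r + 3) * n)).of_dvd (Dvd.intro _ h1.symm)) x,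
      ((sk_pe hL r ((r + 3) * n) (st L ((r + 3) * n) x)).of_dvd (Dvd.intro_left _ h1.symm)) x]

/-- the Lyapunov function -/
noncomputable def V (L η : ℝ) (r n : ℕ) : ℝ :=
  av (MM L 0 ((r + 3) * n)) (fun x => G L r n x *
    (1 + η * Real.sqrt (la L ((r + 3) * n) * uu (st L ((r + 3) * n) x) 0)))

/-- the constants of the recursion -/
structure Cst (C c a R η δ : ℝ) (r : ℕ) : Prop where
  a_eq : a = (1 - (9992 / 10000 : ℝ) ^ (r + 3)) / 2
  R_eq : R = 2 * (1250 * (1 + C) + 1) / a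
  η0 : 0 < η
  η1 : η ≤ c ^ 2 / (300 * C) / (2 * R ^ 2 * (1250 * (1 + C) + 1))
  δ0 : 0 < δ
  δ1 : δ ≤ η
  δ2 : δ ≤ a

theorem exists_cst {C c : ℝ} (hC : 0 < C) (hc : 0 < c) (r : ℕ) :
    ∃ a R η δ : ℝ, Cst C c a R η δ r := by
  have ha : 0 < (1 - (9992 / 10000 : ℝ) ^ (r + 3)) / 2 := by
    have : (9992 / 10000 : ℝ) ^ (r + 3) < 1 := pow_lt_one₀ (by norm_num) (by norm_num) (by omega)
    linarith
  set a := (1 - (9992 / 10000 : ℝ) ^ (r + 3)) / 2 with hadef
  set R := 2 * (1250 * (1 + C) + 1) / a with hR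
  have hR0 : 0 < R := by positivity
  set η := c ^ 2 / (300 * C) / (2 * R ^ 2 * (1250 * (1 + C) + 1)) with hη
  have hη0 : 0 < η := by positivity
  exact ⟨a, R, η, min η a, rfl, rfl, hη0, le_rfl, lt_min hη0 ha, min_le_left _ _, min_le_right _ _⟩

/-- the recursion, for a fixed state -/
theorem inner {L C c : ℝ} {r : ℕ} (H : Hyp L C c r) {a R η δ : ℝ} (K : Cst C c a R η δ r)
    (k x : ℕ) (l : List (ℕ × Bool)) (hl : Inv L k x l) :
    av (MM L k (k + (r + 3))) (fun y => (1 - sk L r k l y) *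
      (1 + η * Real.sqrt (la L (k + (r + 3)) * uu (run L k (r + 3) y l) 0)))
      ≤ (1 - δ) * (1 + η * Real.sqrt (la L k * uu l 0)) := by
  have hL0 : 0 < L := by linarith [H.hL]
  have hC := H.hC
  have hc := H.hc
  have h1 := steps H k (r + 3) l hl.1
  have h2 := attk H k x l hl
  set M := MM L k (k + (r + 3)) with hM
  have hM0 : 0 < M := MM_pos _ _ _
  set X := Real.sqrt (la L k * uu l 0) with hX
  have hX0 : 0 ≤ X := Real.sqrt_nonneg _
  have hXX : la L k * uu l 0 = X ^ 2 := (Real.sq_sqrt (mul_nonneg (la_pos hL0 k).le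
    (uu_nonneg l 0))).symm
  rw [hXX] at h2
  have h2' : c ^ 2 / (300 * C) ≤ av M (sk L r k l) * X ^ 2 := h2
  set P := av M (sk L r k l) with hP
  have hP0 : 0 ≤ P := av_si_nonneg _ _ _ _
  have h3 : av M (fun y => (1 - sk L r k l y) *
      (1 + η * Real.sqrt (la L (k + (r + 3)) * uu (run L k (r + 3) y l) 0)))
      ≤ (1 - P) + η * ((9992 / 10000) ^ (r + 3) * X + 1250 * (1 + C)) := by
    have h4 : ∀ y, (1 - sk L r k l y) *
        (1 + η * Real.sqrt (la L (k + (r + 3)) * uu (run L k (r + 3) y l) 0))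
        ≤ (1 + -sk L r k l y) + η * Real.sqrt (la L (k + (r + 3)) * uu (run L k (r + 3) y l) 0) := by
      intro y
      have h5 := si01 (W L (k + r + 1) (k + r + 2)) (W L (k + r) (k + r + 3)) l y
      have h5' : 0 ≤ sk L r k l y := h5.1
      have h6 : 0 ≤ η * Real.sqrt (la L (k + (r + 3)) * uu (run L k (r + 3) y l) 0) :=
        mul_nonneg K.η0.le (Real.sqrt_nonneg _)
      nlinarith [mul_nonneg h5' h6]
    refine (av_mono h4).trans ?_
    rw [av_add M (fun y => 1 + -sk L r k l y) (fun y => η * Real.sqrt (la L (k + (r + 3)) *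
      uu (run L k (r + 3) y l) 0)), av_mul, av_add M (fun _ => (1 : ℝ)) (fun y => -sk L r k l y),
      av_const hM0]
    have h7 : av M (fun y => -sk L r k l y) = -P := by
      have h8 := av_mul M (-1) (sk L r k l)
      have e : (fun y => -1 * sk L r k l y) = fun y => -sk L r k l y := by
        funext y
        ring
      rw [e] at h8
      rw [h8]
      ring
    rw [h7]
    have h9 := mul_le_mul_of_nonneg_left h1 K.η0.le
    linarith
  refine h3.trans ?_
  -- the two cases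
  have hth : (9992 / 10000 : ℝ) ^ (r + 3) = 1 - 2 * a := by rw [K.a_eq]; ring
  rw [hth]
  have ha : 0 < a := lt_of_lt_of_le K.δ0 K.δ2
  set Q := 1250 * (1 + C) with hQ
  have hQ0 : 0 < Q := by positivity
  have hR0 : 0 < R := by rw [K.R_eq]; positivity
  have hRa : a * R = 2 * (Q + 1) := by
    rw [K.R_eq, hQ]
    field_simp
  have hη0 := K.η0
  have hδ0 := K.δ0
  rcases le_or_gt R X with hc1 | hc1
  · -- `X` large
    have h10 : η * (a * R) ≤ η * (a * X) := by
      apply mul_le_mul_of_nonneg_left _ hη0.le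
      exact mul_le_mul_of_nonneg_left hc1 ha.le
    rw [hRa] at h10
    have h11 : δ * (η * X) ≤ a * (η * X) :=
      mul_le_mul_of_nonneg_right K.δ2 (mul_nonneg hη0.le hX0)
    have h12 := K.δ1
    nlinarith
  · -- `X` small
    have h13 : c ^ 2 / (300 * C) ≤ P * R ^ 2 := by
      refine h2'.trans ?_
      apply mul_le_mul_of_nonneg_left _ hP0
      exact pow_le_pow_left₀ hX0 hc1.le 2
    have h14 : η * (2 * (Q + 1)) ≤ P := by
      have h15 : η * (2 * R ^ 2 * (Q + 1)) ≤ c ^ 2 / (300 * C) := by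
        have h16 := K.η1
        rw [le_div_iff₀ (by positivity)] at h16
        exact h16
      have h17 : η * (2 * (Q + 1)) * R ^ 2 ≤ P * R ^ 2 := by
        have e : η * (2 * (Q + 1)) * R ^ 2 = η * (2 * R ^ 2 * (Q + 1)) := by ring
        rw [e]
        exact h15.trans h13
      exact le_of_mul_le_mul_right h17 (by positivity)
    have h18 : δ * (η * X) ≤ 2 * a * (η * X) := by
      apply mul_le_mul_of_nonneg_right _ (mul_nonneg hη0.le hX0)
      linarith [K.δ2]
    have h12 := K.δ1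
    nlinarith

theorem V_succ {L C c : ℝ} {r : ℕ} (H : Hyp L C c r) {a R η δ : ℝ} (K : Cst C c a R η δ r)
    (n : ℕ) : V L η r (n + 1) ≤ (1 - δ) * V L η r n := by
  have hL0 : 0 < L := by linarith [H.hL]
  have h0 : (r + 3) * (n + 1) = (r + 3) * n + (r + 3) := by ring
  unfold V
  rw [h0]
  set k := (r + 3) * n with hk
  have h1 : MM L 0 (k + (r + 3)) = MM L 0 k * MM L k (k + (r + 3)) := MM_zero L _ _ hL0
  rw [h1]
  have h2 := av_crt (MM_pos L 0 k) (MM_pos L k (k + (r + 3))) (MM_coprime L 0 k (k + (r + 3)))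
    (fun x y => G L r n x * ((1 - sk L r k (st L k x) y) *
      (1 + η * Real.sqrt (la L (k + (r + 3)) * uu (run L k (r + 3) y (st L k x)) 0))))
    (fun y x => by
      show G L r n (x + MM L 0 k) * ((1 - sk L r k (st L k (x + MM L 0 k)) y) *
        (1 + η * Real.sqrt (la L (k + (r + 3)) *
          uu (run L k (r + 3) y (st L k (x + MM L 0 k))) 0))) = _
      rw [G_pe hL0 r n x, st_pe hL0 k x])
    (fun x y => by
      show G L r n x * ((1 - sk L r k (st L k x) (y + MM L k (k + (r + 3)))) *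
        (1 + η * Real.sqrt (la L (k + (r + 3)) *
          uu (run L k (r + 3) (y + MM L k (k + (r + 3))) (st L k x)) 0))) = _
      rw [sk_pe hL0 r k (st L k x) y, show run L k (r + 3) (y + MM L k (k + (r + 3))) (st L k x)
        = run L k (r + 3) y (st L k x) from run_pe hL0 k (r + 3) (st L k x) y])
  have h3 : (fun x => G L r (n + 1) x *
      (1 + η * Real.sqrt (la L (k + (r + 3)) * uu (st L (k + (r + 3)) x) 0)))
      = fun x => G L r n x * ((1 - sk L r k (st L k x) x) *
      (1 + η * Real.sqrt (la L (k + (r + 3)) * uu (run L k (r + 3) x (st L k x)) 0))) := by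
    funext x
    have e : st L (k + (r + 3)) x = run L k (r + 3) x (st L k x) := run_add L k (r + 3) x []
    rw [e]
    show G L r n x * (1 - sk L r ((r + 3) * n) (st L ((r + 3) * n) x) x) * _ = _
    rw [← hk]
    ring
  rw [h3, h2, ← av_mul]
  apply av_mono
  intro x
  rw [av_mul]
  have h4 := inner H K k x (st L k x) (st_inv H.hL k x)
  have h5 := mul_le_mul_of_nonneg_left h4 (G01 L r n x).1
  calc _ ≤ G L r n x * ((1 - δ) * (1 + η * Real.sqrt (la L k * uu (st L k x) 0))) := h5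
    _ = _ := by ring

theorem V_le {L C c : ℝ} {r : ℕ} (H : Hyp L C c r) {a R η δ : ℝ} (K : Cst C c a R η δ r)
    (n : ℕ) : V L η r n ≤ (1 - δ) ^ n * (1 + η * Real.sqrt L) := by
  have hδ : 0 ≤ 1 - δ := by
    have h1 := K.δ2
    have h2 : a ≤ 1 / 2 := by
      rw [K.a_eq]
      have : (0 : ℝ) ≤ (9992 / 10000 : ℝ) ^ (r + 3) := by positivity
      linarith
    linarith
  induction n with
  | zero =>
    have h1 : V L η r 0 = 1 + η * Real.sqrt L := by
      unfold V
      rw [Nat.mul_zero]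
      have h2 : (fun x => G L r 0 x * (1 + η * Real.sqrt (la L 0 * uu (st L 0 x) 0)))
          = fun _ => 1 + η * Real.sqrt L := by
        funext x
        show 1 * (1 + η * Real.sqrt (la L 0 * uu [] 0)) = _
        rw [uu_nil]
        unfold la
        rw [pow_zero, mul_one, mul_one, one_mul]
      rw [h2, av_const (MM_pos _ _ _)]
    rw [h1, pow_zero, one_mul]
  | succ n ih =>
    refine (V_succ H K n).trans ?_
    rw [pow_succ]
    calc (1 - δ) * V L η r n ≤ (1 - δ) * ((1 - δ) ^ n * (1 + η * Real.sqrt L)) :=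
          mul_le_mul_of_nonneg_left ih hδ
      _ = _ := by ring

theorem avG_le {L C c : ℝ} {r : ℕ} (H : Hyp L C c r) {a R η δ : ℝ} (K : Cst C c a R η δ r)
    (n : ℕ) : av (MM L 0 ((r + 3) * n)) (G L r n) ≤ (1 - δ) ^ n * (1 + η * Real.sqrt L) := by
  refine (av_mono fun x => ?_).trans (V_le H K n)
  have h1 := (G01 L r n x).1
  have h2 : 0 ≤ η * Real.sqrt (la L ((r + 3) * n) * uu (st L ((r + 3) * n) x) 0) :=
    mul_nonneg K.η0.le (Real.sqrt_nonneg _)
  nlinarith [mul_nonneg h1 h2]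

end Pool.Agent.SHP
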